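import Mathlib
import Pool.Agent.W504.YM.Near

/-!
# Weighted gradients
-/

open Pool.Agent.H906R3.YM Filter Topology Set

namespace Pool.Agent.W504.YM

noncomputable section

variable {A : Type*} [CommRing A] [Algebra ℝ A] {J X : Type*} [Fintype J] [DecidableEq J]
    [TopologicalSpace X]

namespace Geo

/-- weights compatible with the commutators and the rotations -/
structure Wt (S : Geo A J X) (w : J → ℝ) : Prop where
  pos : ∀ j, 0 < w j
  sg13 : ∀ i j k, w i ≠ w k → S.sg i j k = 0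
  sg12 : ∀ i j k, w i ≠ w j → S.sg i j k = 0
  rot : ∀ x j k, w j ≠ w k → S.rot x j k = 0

/-- the weighted square of the gradient -/
def Gw (S : Geo A J X) (w : J → ℝ) (y : A) : A := ∑ j, (w j ^ 2) • (S.D j y * S.D j y)

variable {S : Geo A J X} {w : J → ℝ}

lemma bochner_j (g : J → A) (y y' : A)
    (h : y' = Lap S.D y + (2 : ℝ) • ∑ i, g i * S.D i y) (j : J) :
    (2 : ℝ) • (S.D j y * S.D j y') =
      Lap S.D (S.D j y * S.D j y) + (2 : ℝ) • (∑ i, g i * S.D i (S.D j y * S.D j y)) -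
        (2 : ℝ) • (∑ i, S.D i (S.D j y) * S.D i (S.D j y)) +
        (4 : ℝ) • (∑ i, S.D j y * S.D i y * S.D j (g i)) +
        (4 : ℝ) • ∑ i, g i * (S.D j y * (S.D j (S.D i y) - S.D i (S.D j y))) := by
  have hD : S.D j y' = Lap S.D (S.D j y) +
      (2 : ℝ) • ∑ i, (g i * S.D j (S.D i y) + S.D i y * S.D j (g i)) := by
    rw [h, map_add, S.LapD, Derivation.map_smul, map_sum]
    congr 2
    refine Finset.sum_congr rfl fun i _ => ?_
    rw [Derivation.leibniz, smul_eq_mul, smul_eq_mul]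
  have hL : Lap S.D (S.D j y * S.D j y) = (2 : ℝ) • (S.D j y * Lap S.D (S.D j y)) +
      (2 : ℝ) • ∑ i, S.D i (S.D j y) * S.D i (S.D j y) := by
    rw [Lap_mul]
    unfold Gam
    rw [two_smul ℝ (S.D j y * Lap S.D (S.D j y))]
    ring
  have hG : ∀ i, S.D i (S.D j y * S.D j y) = (2 : ℝ) • (S.D j y * S.D i (S.D j y)) := by
    intro i
    rw [Derivation.leibniz, smul_eq_mul, two_smul]
  have e4 : (4 : ℝ) = 2 * 2 := by norm_num
  rw [hD, hL]
  simp only [hG]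
  have e1 : (2 : ℝ) • ∑ i, g i * (2 : ℝ) • (S.D j y * S.D i (S.D j y)) =
      (4 : ℝ) • ∑ i, g i * (S.D j y * S.D i (S.D j y)) := by
    rw [e4, mul_smul, Finset.smul_sum (r := (2 : ℝ)) (f := fun i => g i * (S.D j y * S.D i (S.D j y)))]
    congr 1
    exact Finset.sum_congr rfl fun i _ => by rw [mul_smul_comm]
  have e2 : (2 : ℝ) • (S.D j y * (Lap S.D (S.D j y) +
      (2 : ℝ) • ∑ i, (g i * S.D j (S.D i y) + S.D i y * S.D j (g i)))) =
      (2 : ℝ) • (S.D j y * Lap S.D (S.D j y)) +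
      (4 : ℝ) • ∑ i, (g i * (S.D j y * S.D j (S.D i y)) + S.D j y * S.D i y * S.D j (g i)) := by
    rw [mul_add, smul_add, mul_smul_comm, smul_smul, ← e4, Finset.mul_sum]
    congr 2
    exact Finset.sum_congr rfl fun i _ => by ring
  rw [e1, e2]
  have e3 : ∑ i, (g i * (S.D j y * S.D j (S.D i y)) + S.D j y * S.D i y * S.D j (g i)) =
      ∑ i, g i * (S.D j y * S.D i (S.D j y)) + ∑ i, S.D j y * S.D i y * S.D j (g i) +
        ∑ i, g i * (S.D j y * (S.D j (S.D i y) - S.D i (S.D j y))) := by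
    rw [← Finset.sum_add_distrib, ← Finset.sum_add_distrib]
    exact Finset.sum_congr rfl fun i _ => by ring
  rw [e3, smul_add, smul_add]
  abel

/-- antisymmetry -/
lemma anti_w (hw : S.Wt w) (i : J) (y : A) :
    ∑ j, (w j ^ 2) • (S.D j y * (S.D j (S.D i y) - S.D i (S.D j y))) = 0 := by
  have h1 : ∀ j, (w j ^ 2) • (S.D j y * (S.D j (S.D i y) - S.D i (S.D j y))) =
      ∑ k, (w j ^ 2 * S.sg j i k) • (S.D j y * S.D k y) := by
    intro j
    rw [S.comm, Finset.mul_sum, Finset.smul_sum]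
    exact Finset.sum_congr rfl fun k _ => by rw [mul_smul_comm, smul_smul]
  rw [Finset.sum_congr rfl fun j _ => h1 j]
  have h2 : ∑ j, ∑ k, (w j ^ 2 * S.sg j i k) • (S.D j y * S.D k y) =
      -∑ j, ∑ k, (w j ^ 2 * S.sg j i k) • (S.D j y * S.D k y) := by
    conv_lhs => rw [Finset.sum_comm]
    rw [← Finset.sum_neg_distrib]
    refine Finset.sum_congr rfl fun k _ => ?_
    rw [← Finset.sum_neg_distrib]
    refine Finset.sum_congr rfl fun j _ => ?_
    rw [mul_comm (S.D j y), ← neg_smul]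
    congr 1
    by_cases hjk : w j = w k
    · rw [S.anti j i k, hjk]; ring
    · rw [hw.sg13 j i k hjk, hw.sg13 k i j (Ne.symm hjk)]; ring
  have h3 := eq_neg_iff_add_eq_zero.1 h2
  rw [← two_smul ℝ] at h3
  have h4 := congrArg (fun z => (1 / 2 : ℝ) • z) h3
  simpa [smul_smul] using h4

/-- Bochner formula with weights. -/
lemma bochner_w (hw : S.Wt w) (g : J → A) (y y' : A)
    (h : y' = Lap S.D y + (2 : ℝ) • ∑ i, g i * S.D i y) :
    (2 : ℝ) • ∑ j, (w j ^ 2) • (S.D j y * S.D j y') =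
      Lap S.D (S.Gw w y) + (2 : ℝ) • (∑ i, g i * S.D i (S.Gw w y)) -
        (2 : ℝ) • (∑ i, ∑ j, (w j ^ 2) • (S.D i (S.D j y) * S.D i (S.D j y))) +
        (4 : ℝ) • ∑ i, ∑ j, (w j ^ 2) • (S.D j y * S.D i y * S.D j (g i)) := by
  have h0 : (2 : ℝ) • ∑ j, (w j ^ 2) • (S.D j y * S.D j y') =
      ∑ j, (w j ^ 2) • ((2 : ℝ) • (S.D j y * S.D j y')) := by
    rw [Finset.smul_sum]
    exact Finset.sum_congr rfl fun j _ => smul_comm _ _ _
  rw [h0, Finset.sum_congr rfl fun j _ => by rw [bochner_j g y y' h j]]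
  simp only [smul_add, smul_sub, Finset.sum_add_distrib, Finset.sum_sub_distrib]
  have e1 : ∑ j, (w j ^ 2) • Lap S.D (S.D j y * S.D j y) = Lap S.D (S.Gw w y) := by
    unfold Gw
    rw [Lap_sum]
    exact Finset.sum_congr rfl fun j _ => (Lap_smul _ _).symm
  have e2 : ∑ j, (w j ^ 2) • (2 : ℝ) • ∑ i, g i * S.D i (S.D j y * S.D j y) =
      (2 : ℝ) • ∑ i, g i * S.D i (S.Gw w y) := by
    rw [Finset.smul_sum]
    simp only [Finset.smul_sum]
    rw [Finset.sum_comm]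
    refine Finset.sum_congr rfl fun i _ => ?_
    unfold Gw
    rw [map_sum, Finset.mul_sum, Finset.smul_sum]
    refine Finset.sum_congr rfl fun j _ => ?_
    rw [Derivation.map_smul, mul_smul_comm, smul_comm]
  have e3 : ∑ j, (w j ^ 2) • (2 : ℝ) • ∑ i, S.D i (S.D j y) * S.D i (S.D j y) =
      (2 : ℝ) • ∑ i, ∑ j, (w j ^ 2) • (S.D i (S.D j y) * S.D i (S.D j y)) := by
    rw [Finset.smul_sum]
    simp only [Finset.smul_sum]
    rw [Finset.sum_comm]
    exact Finset.sum_congr rfl fun i _ => Finset.sum_congr rfl fun j _ => smul_comm _ _ _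
  have e4 : ∑ j, (w j ^ 2) • (4 : ℝ) • ∑ i, S.D j y * S.D i y * S.D j (g i) =
      (4 : ℝ) • ∑ i, ∑ j, (w j ^ 2) • (S.D j y * S.D i y * S.D j (g i)) := by
    rw [Finset.smul_sum]
    simp only [Finset.smul_sum]
    rw [Finset.sum_comm]
    exact Finset.sum_congr rfl fun i _ => Finset.sum_congr rfl fun j _ => smul_comm _ _ _
  have e5 : ∑ j, (w j ^ 2) • (4 : ℝ) • ∑ i, g i * (S.D j y * (S.D j (S.D i y) - S.D i (S.D j y)))
      = 0 := by
    have e6 : ∑ j, (w j ^ 2) • (4 : ℝ) • ∑ i, g i *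
        (S.D j y * (S.D j (S.D i y) - S.D i (S.D j y))) =
        (4 : ℝ) • ∑ i, g i * ∑ j, (w j ^ 2) •
          (S.D j y * (S.D j (S.D i y) - S.D i (S.D j y))) := by
      rw [Finset.smul_sum]
      simp only [Finset.smul_sum, Finset.mul_sum]
      rw [Finset.sum_comm]
      refine Finset.sum_congr rfl fun i _ => Finset.sum_congr rfl fun j _ => ?_
      rw [mul_smul_comm, smul_comm]
    rw [e6, Finset.sum_eq_zero fun i _ => by rw [anti_w hw, mul_zero], smul_zero]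
  rw [e1, e2, e3, e4, e5, add_zero]

lemma ev_Gw (x : X) (y : A) : S.ev x (S.Gw w y) = ∑ j, w j ^ 2 * S.ev x (S.D j y) ^ 2 := by
  unfold Gw
  rw [map_sum]
  exact Finset.sum_congr rfl fun k _ => by rw [map_smul, map_mul, smul_eq_mul, sq (S.ev x _)]

lemma ev_Gw_nonneg (x : X) (y : A) : 0 ≤ S.ev x (S.Gw w y) := by
  rw [ev_Gw]
  exact Finset.sum_nonneg fun j _ => mul_nonneg (sq_nonneg _) (sq_nonneg _)

lemma Gw_smul (c : ℝ) (f : A) : S.Gw w (c • f) = (c ^ 2) • S.Gw w f := by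
  unfold Gw
  rw [Finset.smul_sum]
  refine Finset.sum_congr rfl fun j _ => ?_
  rw [Derivation.map_smul, smul_mul_smul_comm, ← sq, smul_comm]

/-- the curvature lower bound, at a point -/
lemma hess_ge_w (hw : S.Wt w) (y : A) (x : X) : S.K * S.ev x (S.Gw w y) ≤
    S.ev x (∑ i, ∑ j, (w j ^ 2) • (S.D i (S.D j y) * S.D i (S.D j y))) := by
  have h1 := S.curv fun k => w k * S.ev x (S.D k y)
  have h2 : S.ev x (S.Gw w y) = ∑ k, (w k * S.ev x (S.D k y)) ^ 2 := by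
    rw [ev_Gw]
    exact Finset.sum_congr rfl fun k _ => by rw [mul_pow]
  have h3 : S.ev x (∑ i, ∑ j, (w j ^ 2) • (S.D i (S.D j y) * S.D i (S.D j y))) =
      ∑ i, ∑ j, w j ^ 2 * S.ev x (S.D i (S.D j y)) ^ 2 := by
    rw [map_sum]
    refine Finset.sum_congr rfl fun i _ => ?_
    rw [map_sum]
    exact Finset.sum_congr rfl fun j _ => by rw [map_smul, map_mul, smul_eq_mul, sq (S.ev x _)]
  have h4 : ∀ i j, ∑ k, S.sg i j k * (w k * S.ev x (S.D k y)) =
      w i * (S.ev x (S.D i (S.D j y)) - S.ev x (S.D j (S.D i y))) := by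
    intro i j
    rw [← map_sub, S.comm, map_sum, Finset.mul_sum]
    refine Finset.sum_congr rfl fun k _ => ?_
    rw [map_smul, smul_eq_mul]
    by_cases hik : w i = w k
    · rw [hik]; ring
    · rw [hw.sg13 i j k hik]; ring
  simp only [h4] at h1
  have h5 : ∑ i, ∑ j, (w i * (S.ev x (S.D i (S.D j y)) - S.ev x (S.D j (S.D i y)))) ^ 2 ≤
      ∑ i, ∑ j, (2 * (w j ^ 2 * S.ev x (S.D i (S.D j y)) ^ 2) +
        2 * (w i ^ 2 * S.ev x (S.D j (S.D i y)) ^ 2)) := by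
    refine Finset.sum_le_sum fun i _ => Finset.sum_le_sum fun j _ => ?_
    by_cases hij : w i = w j
    · rw [hij]
      have : 0 ≤ w j ^ 2 * (S.ev x (S.D i (S.D j y)) + S.ev x (S.D j (S.D i y))) ^ 2 := by
        positivity
      nlinarith
    · have h6 : S.D i (S.D j y) - S.D j (S.D i y) = 0 := by
        rw [S.comm]
        exact Finset.sum_eq_zero fun k _ => by rw [hw.sg12 i j k hij, zero_smul]
      rw [← map_sub, h6, map_zero]
      have : 0 ≤ w j ^ 2 * S.ev x (S.D i (S.D j y)) ^ 2 := by positivity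
      have : 0 ≤ w i ^ 2 * S.ev x (S.D j (S.D i y)) ^ 2 := by positivity
      nlinarith
  have h6 : ∑ i, ∑ j, (2 * (w j ^ 2 * S.ev x (S.D i (S.D j y)) ^ 2) +
        2 * (w i ^ 2 * S.ev x (S.D j (S.D i y)) ^ 2)) =
      4 * ∑ i, ∑ j, w j ^ 2 * S.ev x (S.D i (S.D j y)) ^ 2 := by
    simp only [Finset.sum_add_distrib]
    rw [Finset.sum_comm (f := fun i j => 2 * (w i ^ 2 * S.ev x (S.D j (S.D i y)) ^ 2))]
    simp only [← Finset.mul_sum]
    ring
  rw [h2, h3]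
  linarith

/-- the weighted right derivative -/
def Rw (S : Geo A J X) (w : J → ℝ) (η : J → ℝ) (f : A) : A := S.Rη (fun k => (w k)⁻¹ * η k) f

lemma Rw_smul (c : ℝ) (η : J → ℝ) (f : A) : S.Rw w (fun k => c * η k) f = c • S.Rw w η f := by
  unfold Rw
  rw [← Rη_smul]
  congr 1
  funext k
  ring

lemma tr_w (hw : S.Wt w) (x : X) (ξ : J → ℝ) :
    S.tr x (fun j => (w j)⁻¹ * ξ j) = fun k => (w k)⁻¹ * S.tr x ξ k := by
  funext k
  unfold tr
  rw [Finset.mul_sum]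
  refine Finset.sum_congr rfl fun j _ => ?_
  dsimp only
  by_cases hjk : w j = w k
  · rw [hjk]; ring
  · rw [hw.rot x j k hjk]; ring

/-- The weighted quadratic form of the second derivatives of `log ψ`. -/
lemma hess_eq_w (hw : S.Wt w) {ψ p : A} (h : ψ * p = 1) (x : X) (ξ : J → ℝ) :
    ∑ i, ∑ j, (w j * ξ j) * ((w i)⁻¹ * ξ i) * S.ev x (S.D j (p * S.D i ψ)) =
      ∑ j, w j * ξ j * S.ev x (S.D j (p * S.Rw w (S.tr x ξ) ψ)) := by
  have h1 : ∀ i j, S.D j (p * S.D i ψ) = p * S.D i (S.D j ψ) - p * p * S.D j ψ * S.D i ψ +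
      p * (S.D j (S.D i ψ) - S.D i (S.D j ψ)) := by
    intro i j
    rw [Derivation.leibniz, D_inv h, smul_eq_mul, smul_eq_mul]; ring
  have h2 : ∀ j, S.ev x (S.D j (p * S.Rw w (S.tr x ξ) ψ)) =
      ∑ i, (w i)⁻¹ * ξ i * S.ev x (p * S.D i (S.D j ψ) - p * p * S.D j ψ * S.D i ψ) := by
    intro j
    have e1 : S.D j (p * S.Rw w (S.tr x ξ) ψ) = p * S.Rw w (S.tr x ξ) (S.D j ψ) -
        p * p * S.D j ψ * S.Rw w (S.tr x ξ) ψ := by
      unfold Rw
      rw [Derivation.leibniz, D_inv h, smul_eq_mul, smul_eq_mul, Rη_D]; ring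
    have e2 : ∀ f, S.ev x (S.Rw w (S.tr x ξ) f) = ∑ i, (w i)⁻¹ * ξ i * S.ev x (S.D i f) := by
      intro f
      unfold Rw
      rw [← tr_w hw, ev_tr]
    rw [e1, map_sub, map_mul, map_mul (S.ev x) (p * p * S.D j ψ), e2, e2, Finset.mul_sum,
      Finset.mul_sum, ← Finset.sum_sub_distrib]
    refine Finset.sum_congr rfl fun i _ => ?_
    simp only [map_sub, map_mul]; ring
  have h3 : ∑ i, ∑ j, (w j * ξ j) * ((w i)⁻¹ * ξ i) * S.ev x (S.D j (p * S.D i ψ)) =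
      ∑ i, ∑ j, (w j * ξ j) * ((w i)⁻¹ * ξ i) *
        S.ev x (p * S.D i (S.D j ψ) - p * p * S.D j ψ * S.D i ψ) +
      S.ev x p * ∑ i, ∑ j, ξ j * ξ i * S.ev x (S.D j (S.D i ψ) - S.D i (S.D j ψ)) := by
    rw [Finset.mul_sum, ← Finset.sum_add_distrib]
    refine Finset.sum_congr rfl fun i _ => ?_
    rw [Finset.mul_sum, ← Finset.sum_add_distrib]
    refine Finset.sum_congr rfl fun j _ => ?_
    rw [h1 i j, map_add, mul_add]
    congr 1
    rw [map_mul]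
    by_cases hij : w j = w i
    · rw [hij]
      have := (hw.pos i).ne'
      field_simp
    · have h6 : S.D j (S.D i ψ) - S.D i (S.D j ψ) = 0 := by
        rw [S.comm]
        exact Finset.sum_eq_zero fun k _ => by rw [hw.sg12 j i k hij, zero_smul]
      rw [h6, map_zero]; ring
  have h4 : ∑ i, ∑ j, ξ j * ξ i * S.ev x (S.D j (S.D i ψ) - S.D i (S.D j ψ)) = 0 := by
    have e1 : ∑ i, ∑ j, ξ j * ξ i * S.ev x (S.D j (S.D i ψ) - S.D i (S.D j ψ)) =
        -∑ i, ∑ j, ξ j * ξ i * S.ev x (S.D j (S.D i ψ) - S.D i (S.D j ψ)) := by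
      conv_lhs => rw [Finset.sum_comm]
      rw [← Finset.sum_neg_distrib]
      refine Finset.sum_congr rfl fun i _ => ?_
      rw [← Finset.sum_neg_distrib]
      refine Finset.sum_congr rfl fun j _ => ?_
      rw [map_sub, map_sub]; ring
    linarith
  rw [h3, h4, mul_zero, add_zero]
  rw [Finset.sum_comm]
  refine Finset.sum_congr rfl fun j _ => ?_
  rw [h2, Finset.mul_sum]
  exact Finset.sum_congr rfl fun i _ => by ring

/-- from the unit sphere to all vectors -/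
lemma homog_w {x : X} {p ψ : A} {Y : ℝ}
    (h : ∀ η : J → ℝ, ∑ k, η k ^ 2 = 1 → S.ev x (S.Gw w (p * S.Rw w η ψ)) ≤ Y ^ 2) (η : J → ℝ) :
    S.ev x (S.Gw w (p * S.Rw w η ψ)) ≤ Y ^ 2 * ∑ k, η k ^ 2 := by
  have hn : 0 ≤ ∑ k, η k ^ 2 := Finset.sum_nonneg fun k _ => sq_nonneg _
  rcases hn.eq_or_lt with h0 | h0
  · have h1 : ∀ k, η k = 0 := by
      intro k
      have := (Finset.sum_eq_zero_iff_of_nonneg fun k _ => sq_nonneg (η k)).1 h0.symm k
        (Finset.mem_univ k)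
      exact pow_eq_zero_iff two_ne_zero |>.1 this
    have h2 : S.Rw w η ψ = 0 := by
      unfold Rw Rη
      exact Finset.sum_eq_zero fun k _ => by dsimp only; rw [h1, mul_zero, zero_smul]
    rw [h2, mul_zero, ← h0, mul_zero]
    unfold Gw
    simp
  · obtain ⟨c, hc⟩ : ∃ c, c = Real.sqrt (∑ k, η k ^ 2) := ⟨_, rfl⟩
    have hc2 : c ^ 2 = ∑ k, η k ^ 2 := by rw [hc]; exact Real.sq_sqrt hn
    have hc0 : c ≠ 0 := by
      intro h'
      rw [h'] at hc2
      linarith [hc2, h0]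
    have h1 := h (fun k => c⁻¹ * η k) (by
      have : ∀ k, (c⁻¹ * η k) ^ 2 = (c ^ 2)⁻¹ * η k ^ 2 := fun k => by
        rw [mul_pow, inv_pow]
      rw [Finset.sum_congr rfl fun k _ => this k, ← Finset.mul_sum, ← hc2]
      exact inv_mul_cancel₀ (pow_ne_zero 2 hc0))
    have h2 : S.Rw w η ψ = c • S.Rw w (fun k => c⁻¹ * η k) ψ := by
      rw [← Rw_smul]
      congr 1
      funext k
      rw [← mul_assoc, mul_inv_cancel₀ hc0, one_mul]
    rw [h2, mul_smul_comm, Gw_smul, map_smul, smul_eq_mul, ← hc2, mul_comm]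
    exact mul_le_mul_of_nonneg_right h1 (sq_nonneg _)

/-- the weighted quadratic form of the second derivatives of `log ψ` is at most `Y` -/
lemma hess_le_w (hw : S.Wt w) {ψ p : A} (h : ψ * p = 1) {x : X} {Y : ℝ} (hY : 0 ≤ Y)
    (hH : ∀ η : J → ℝ, ∑ k, η k ^ 2 = 1 → S.ev x (S.Gw w (p * S.Rw w η ψ)) ≤ Y ^ 2) (ξ : J → ℝ) :
    ∑ i, ∑ j, (w j * ξ j) * ((w i)⁻¹ * ξ i) * S.ev x (S.D j (p * S.D i ψ)) ≤
      Y * ∑ j, ξ j ^ 2 := by
  rw [hess_eq_w hw h]
  have hH' := homog_w hH (S.tr x ξ)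
  rw [tr_sq, ev_Gw] at hH'
  have c1 := Finset.sum_mul_sq_le_sq_mul_sq Finset.univ ξ
    (fun j => w j * S.ev x (S.D j (p * S.Rw w (S.tr x ξ) ψ)))
  have hn : 0 ≤ ∑ j, ξ j ^ 2 := Finset.sum_nonneg fun j _ => sq_nonneg _
  have e : ∑ j, w j * ξ j * S.ev x (S.D j (p * S.Rw w (S.tr x ξ) ψ)) =
      ∑ j, ξ j * (w j * S.ev x (S.D j (p * S.Rw w (S.tr x ξ) ψ))) :=
    Finset.sum_congr rfl fun j _ => by ring
  have c2 : (∑ j, ξ j * (w j * S.ev x (S.D j (p * S.Rw w (S.tr x ξ) ψ)))) ^ 2 ≤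
      (Y * ∑ j, ξ j ^ 2) ^ 2 := by
    refine c1.trans ?_
    simp only [mul_pow]
    calc (∑ j, ξ j ^ 2) * ∑ j, w j ^ 2 * S.ev x (S.D j (p * S.Rw w (S.tr x ξ) ψ)) ^ 2
        ≤ (∑ j, ξ j ^ 2) * (Y ^ 2 * ∑ j, ξ j ^ 2) := mul_le_mul_of_nonneg_left hH' hn
      _ = _ := by ring
  rw [e]
  exact (le_abs_self _).trans (abs_le_of_sq_le_sq c2 (mul_nonneg hY hn))

/-- The evolution of the weighted square of the gradient at a maximum. -/
lemma point_w (hw : S.Wt w) (g : J → A) (y y' : A)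
    (h : y' = Lap S.D y + (2 : ℝ) • ∑ i, g i * S.D i y) {x : X} {Y : ℝ}
    (hx : ∀ x', S.ev x' (S.Gw w y) ≤ S.ev x (S.Gw w y))
    (hH : ∀ ξ : J → ℝ, ∑ i, ∑ j, (w j * ξ j) * ((w i)⁻¹ * ξ i) * S.ev x (S.D j (g i)) ≤
      Y * ∑ j, ξ j ^ 2) :
    S.ev x ((2 : ℝ) • ∑ j, (w j ^ 2) • (S.D j y * S.D j y')) ≤
      (4 * Y - 2 * S.K) * S.ev x (S.Gw w y) := by
  rw [bochner_w hw g y y' h, map_add, map_sub, map_add]
  have h1 := ev_Lap_nonpos hx
  have h2 : S.ev x ((2 : ℝ) • ∑ i, g i * S.D i (S.Gw w y)) = 0 := by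
    rw [map_smul, map_sum, Finset.sum_eq_zero, smul_zero]
    intro i _
    rw [map_mul, S.max1 _ x hx i, mul_zero]
  have h3 := hess_ge_w hw y x
  have h4 : S.ev x ((2 : ℝ) • ∑ i, ∑ j, (w j ^ 2) • (S.D i (S.D j y) * S.D i (S.D j y))) =
      2 * S.ev x (∑ i, ∑ j, (w j ^ 2) • (S.D i (S.D j y) * S.D i (S.D j y))) := by
    rw [map_smul, smul_eq_mul]
  obtain ⟨ξ, hξ⟩ : ∃ ξ : J → ℝ, ξ = fun j => w j * S.ev x (S.D j y) := ⟨_, rfl⟩
  have hξ2 : S.ev x (S.Gw w y) = ∑ j, ξ j ^ 2 := by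
    rw [ev_Gw, hξ]
    exact Finset.sum_congr rfl fun j _ => by rw [mul_pow]
  have h5 : S.ev x ((4 : ℝ) • ∑ i, ∑ j, (w j ^ 2) • (S.D j y * S.D i y * S.D j (g i))) =
      4 * ∑ i, ∑ j, (w j * ξ j) * ((w i)⁻¹ * ξ i) * S.ev x (S.D j (g i)) := by
    rw [map_smul, smul_eq_mul, map_sum, hξ]
    congr 1
    refine Finset.sum_congr rfl fun i _ => ?_
    rw [map_sum]
    refine Finset.sum_congr rfl fun j _ => ?_
    rw [map_smul, map_mul, map_mul, smul_eq_mul]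
    have := (hw.pos i).ne'
    field_simp
  have h6 := hH ξ
  rw [h2, h4, h5, hξ2]
  rw [hξ2] at h3
  linarith

end Geo

end

end Pool.Agent.W504.YM
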