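import Mathlib
import Pool.Agent.W504.YW.W1

/-!
# Heat flow: weighted second derivatives of the logarithm, weighted gradients of quotients
-/

open Pool.Agent.H906R3.YM Filter Topology Set

namespace Pool.Agent.W504.YM

noncomputable section

variable {A : Type*} [CommRing A] [Algebra ℝ A] {J X : Type*} [Fintype J] [DecidableEq J]
    [TopologicalSpace X]

namespace Geo

variable {S : Geo A J X} {w : J → ℝ}

lemma TD.smul {f f' : ℝ → A} (hf : S.TD f f') (c : ℝ) : S.TD (fun s => c • f s) fun s => c • f' s := by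
  refine ((FC.const (c • (1 : A))).TD.mul hf).congr (fun s _ => ?_) fun s _ => ?_
  · rw [smul_mul_assoc, one_mul]
  · rw [smul_mul_assoc, one_mul, zero_mul, zero_add]

lemma Gw_TD {ψ p u : ℝ → A} (hψ : S.Heat ψ) (hp : ∀ s, 0 ≤ s → ψ s * p s = 1)
    (hu : S.Heat u) (w : J → ℝ) : S.TD (fun s => S.Gw w (p s * u s))
      (fun s => (2 : ℝ) • ∑ j, (w j ^ 2) • (S.D j (p s * u s) *
        S.D j (p s * Lap S.D (u s) - p s * p s * u s * Lap S.D (ψ s)))) := by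
  have h1 := TD.sum (S := S) Finset.univ fun j _ =>
    ((quot_TD hψ hp hu j).mul (quot_TD hψ hp hu j)).smul (w j ^ 2)
  refine h1.congr (fun s hs => rfl) fun s hs => ?_
  rw [Finset.smul_sum]
  refine Finset.sum_congr rfl fun j _ => ?_
  rw [smul_comm, two_smul]
  congr 1
  ring

lemma Heat.Rw {ψ : ℝ → A} (h : S.Heat ψ) (w η : J → ℝ) : S.Heat fun s => S.Rw w η (ψ s) :=
  h.Rη _

/-- The weighted evolution of the square of the gradient of a quotient at a maximum. -/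
lemma point_bound_w (hw : S.Wt w) {ψ p u : A} (h : ψ * p = 1) {x : X} {Y : ℝ} (hY : 0 ≤ Y)
    (hx : ∀ x', S.ev x' (S.Gw w (p * u)) ≤ S.ev x (S.Gw w (p * u)))
    (hH : ∀ η : J → ℝ, ∑ k, η k ^ 2 = 1 → S.ev x (S.Gw w (p * S.Rw w η ψ)) ≤ Y ^ 2) :
    S.ev x ((2 : ℝ) • ∑ j, (w j ^ 2) • (S.D j (p * u) *
      S.D j (p * Lap S.D u - p * p * u * Lap S.D ψ))) ≤
      (4 * Y - 2 * S.K) * S.ev x (S.Gw w (p * u)) :=
  point_w hw (fun i => p * S.D i ψ) (p * u) _ (quot_eq h) hx fun ξ => hess_le_w hw h hY hH ξ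

/-- The weighted bound for the second derivatives of `log ψ` is preserved below the barrier. -/
lemma hess_barrier_w [CompactSpace X] (hw : S.Wt w) {ψ p : ℝ → A} (hψ : S.Heat ψ)
    (hp : ∀ s, 0 ≤ s → ψ s * p s = 1) {T b Y0 : ℝ} (hb : 0 ≤ b) (hY0 : 0 < Y0)
    (hbar : ∀ s, 0 ≤ s → s ≤ T →
      2 * (Y0 + b * (T - s)) ^ 2 - S.K * (Y0 + b * (T - s)) + b < 0)
    (h0 : ∀ x (η : J → ℝ), ∑ k, η k ^ 2 = 1 →
      S.ev x (S.Gw w (p 0 * S.Rw w η (ψ 0))) < (Y0 + b * T) ^ 2) :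
    ∀ s, 0 ≤ s → s ≤ T → ∀ x (η : J → ℝ), ∑ k, η k ^ 2 = 1 →
      S.ev x (S.Gw w (p s * S.Rw w η (ψ s))) < (Y0 + b * (T - s)) ^ 2 := by
  have key := first_touch (Z := X × Sph J) (T := T)
    (f := fun s z => S.ev z.1 (S.Gw w (p s * S.Rw w z.2.1 (ψ s))) - (Y0 + b * (T - s)) ^ 2)
    (f' := fun s z => S.ev z.1 ((2 : ℝ) • ∑ j, (w j ^ 2) • (S.D j (p s * S.Rw w z.2.1 (ψ s)) *
        S.D j (p s * Lap S.D (S.Rw w z.2.1 (ψ s)) -
          p s * p s * S.Rw w z.2.1 (ψ s) * Lap S.D (ψ s))))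
        - 2 * (Y0 + b * (T - s)) * (-b))
    ?_ ?_ ?_ ?_
  · intro s hs hsT x η hη
    have := key s hs hsT (x, ⟨η, hη⟩)
    simp only at this
    linarith
  · -- continuity
    have h1 : ∀ j k, ContinuousOn (fun q : ℝ × (X × Sph J) =>
        S.ev q.2.1 (S.D j (p q.1 * S.R k (ψ q.1)))) (Icc 0 T ×ˢ univ) := by
      intro j k
      have h2 := (quot_TD hψ hp (hψ.R k) j).jc
      refine h2.comp (g := fun z : ℝ × X => S.ev z.2 (S.D j (p z.1 * S.R k (ψ z.1))))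
        (f := fun q : ℝ × (X × Sph J) => ((q.1, q.2.1) : ℝ × X)) (by fun_prop) ?_
      rintro ⟨s, x, η⟩ ⟨hs, -⟩
      exact ⟨hs.1, trivial⟩
    have h3 : ∀ q : ℝ × (X × Sph J), S.ev q.2.1 (S.Gw w (p q.1 * S.Rw w q.2.2.1 (ψ q.1))) =
        ∑ j, w j ^ 2 * (∑ k, (w k)⁻¹ * q.2.2.1 k *
          S.ev q.2.1 (S.D j (p q.1 * S.R k (ψ q.1)))) ^ 2 := by
      intro q
      rw [ev_Gw]
      refine Finset.sum_congr rfl fun j _ => ?_
      congr 2
      unfold Geo.Rw Rη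
      rw [Finset.mul_sum, map_sum, map_sum]
      refine Finset.sum_congr rfl fun k _ => ?_
      rw [mul_smul_comm, Derivation.map_smul, map_smul, smul_eq_mul]
    simp only [h3]
    refine ContinuousOn.sub ?_ (by fun_prop)
    refine continuousOn_finsetSum _ fun j _ => ContinuousOn.mul continuousOn_const
      (ContinuousOn.pow ?_ 2)
    refine continuousOn_finsetSum _ fun k _ => ContinuousOn.mul (ContinuousOn.mul
      continuousOn_const ?_) (h1 j k)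
    exact ((continuous_apply k).comp (continuous_subtype_val.comp
      (continuous_snd.comp continuous_snd))).continuousOn
  · rintro ⟨x, η, hη⟩
    have := h0 x η hη
    simp only [sub_zero]
    linarith
  · rintro s hs hsT ⟨x, η, hη⟩
    refine HasDerivAt.sub ((Gw_TD hψ hp (hψ.Rw w η) w).d x s hs) ?_
    have h1 : HasDerivAt (fun r : ℝ => Y0 + b * (T - r)) (-b) s := by
      have := (((hasDerivAt_id s).const_sub T).const_mul b).const_add Y0
      simpa using this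
    simpa using h1.fun_pow 2
  · rintro s hs hsT ⟨x, η, hη⟩ hz hmax
    simp only at hz hmax ⊢
    obtain ⟨Y, hY⟩ : ∃ Y, Y = Y0 + b * (T - s) := ⟨_, rfl⟩
    rw [← hY] at hz hmax ⊢
    have hYpos : 0 < Y := by
      rw [hY]
      have : 0 ≤ b * (T - s) := mul_nonneg hb (by linarith)
      linarith
    have hbar' := hbar s hs.le hsT
    rw [← hY] at hbar'
    have h1 := point_bound_w (S := S) hw (hp s hs.le) (u := S.Rw w η (ψ s)) (x := x) hYpos.le (by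
      intro x'
      have := hmax (x', ⟨η, hη⟩)
      simp only at this
      linarith) (fun η' hη' => by
      have := hmax (x, ⟨η', hη'⟩)
      simp only at this
      linarith)
    have h2 : S.ev x (S.Gw w (p s * S.Rw w η (ψ s))) = Y ^ 2 := by linarith
    rw [h2] at h1
    have h3 : (4 * Y - 2 * S.K) * Y ^ 2 - 2 * Y * (-b) =
        2 * Y * (2 * Y ^ 2 - S.K * Y + b) := by ring
    have h4 : 2 * Y * (2 * Y ^ 2 - S.K * Y + b) < 0 :=
      mul_neg_of_pos_of_neg (by linarith) hbar'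
    linarith

/-- A decay lemma for weighted squares. -/
lemma decay_gen [CompactSpace X] {q q' : ℝ → A} (hq : S.TD q q') {T κ κ' C : ℝ} (hC : 0 < C)
    (hκ : κ < κ') (hmax : ∀ s, 0 < s → s ≤ T → ∀ x, (∀ x', S.ev x' (q s) ≤ S.ev x (q s)) →
      S.ev x (q' s) ≤ -(2 * κ') * S.ev x (q s))
    (h0 : ∀ x, S.ev x (q 0) < C) :
    ∀ s, 0 ≤ s → s ≤ T → ∀ x, S.ev x (q s) < C * Real.exp (-(2 * κ * s)) := by
  have key := first_touch (Z := X) (T := T)
    (f := fun s z => S.ev z (q s) - C * Real.exp (-(2 * κ * s)))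
    (f' := fun s z => S.ev z (q' s) - C * (Real.exp (-(2 * κ * s)) * (-(2 * κ))))
    ?_ ?_ ?_ ?_
  · intro s hs hsT x
    have := key s hs hsT x
    linarith
  · refine ContinuousOn.sub ?_ (by fun_prop)
    exact hq.jc.mono (prod_mono (fun s hs => hs.1) subset_rfl)
  · intro x
    have := h0 x
    simp only [mul_zero, neg_zero, Real.exp_zero, mul_one]
    linarith
  · intro s hs hsT x
    refine HasDerivAt.sub (hq.d x s hs) ?_
    refine HasDerivAt.const_mul C ?_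
    refine HasDerivAt.exp ?_
    have := ((hasDerivAt_id s).const_mul (2 * κ)).fun_neg
    simpa using this
  · intro s hs hsT x hz hmx
    have h1 := hmax s hs hsT x (by
      intro x'
      have := hmx x'
      linarith)
    obtain ⟨e, he⟩ : ∃ e, e = Real.exp (-(2 * κ * s)) := ⟨_, rfl⟩
    have he0 : 0 < e := by rw [he]; exact Real.exp_pos _
    rw [← he] at hz hmx ⊢
    have h2 : S.ev x (q s) = C * e := by linarith
    rw [h2] at h1
    have h3 : -(2 * κ') * (C * e) - C * (e * (-(2 * κ))) = 2 * (C * e) * (κ - κ') := by ring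
    have h4 : 2 * (C * e) * (κ - κ') < 0 :=
      mul_neg_of_pos_of_neg (by positivity) (by linarith)
    linarith

/-- Decay of the weighted gradient of a quotient. -/
lemma grad_decay_w [CompactSpace X] (hw : S.Wt w) {ψ p u : ℝ → A} (hψ : S.Heat ψ)
    (hp : ∀ s, 0 ≤ s → ψ s * p s = 1) (hu : S.Heat u) {T Y κ C : ℝ} (hY : 0 ≤ Y)
    (hC : 0 < C) (hκ : κ < S.K - 2 * Y)
    (hH : ∀ s, 0 ≤ s → s ≤ T → ∀ x (η : J → ℝ), ∑ k, η k ^ 2 = 1 →
      S.ev x (S.Gw w (p s * S.Rw w η (ψ s))) ≤ Y ^ 2)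
    (h0 : ∀ x, S.ev x (S.Gw w (p 0 * u 0)) < C) :
    ∀ s, 0 ≤ s → s ≤ T → ∀ x, S.ev x (S.Gw w (p s * u s)) < C * Real.exp (-(2 * κ * s)) := by
  refine decay_gen (Gw_TD hψ hp hu w) hC hκ (fun s hs hsT x hx => ?_) h0
  have h1 := point_bound_w hw (hp s hs.le) (u := u s) (x := x) hY hx
    fun η hη => hH s hs.le hsT x η hη
  have h2 : (4 * Y - 2 * S.K) = -(2 * (S.K - 2 * Y)) := by ring
  rw [h2] at h1
  exact h1

/-! ### two solutions -/

/-- the hypothesis that positive functions have logarithms -/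
def HasLog (S : Geo A J X) : Prop := ∀ f : A, (∀ x, 0 < S.ev x f) →
  ∃ ℓ : A, ∀ p, f * p = 1 → ∀ j, S.D j ℓ = p * S.D j f

/-- the difference of the logarithmic derivatives -/
def Z (S : Geo A J X) (p ψ p' ψ' : A) (j : J) : A := p * S.D j ψ - p' * S.D j ψ'

/-- the weighted square of the difference of the logarithmic derivatives -/
def Zw (S : Geo A J X) (w : J → ℝ) (p ψ p' ψ' : A) : A :=
  ∑ j, (w j ^ 2) • (S.Z p ψ p' ψ' j * S.Z p ψ p' ψ' j)

lemma ev_Zw (x : X) (p ψ p' ψ' : A) : S.ev x (S.Zw w p ψ p' ψ') =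
    ∑ j, w j ^ 2 * S.ev x (S.Z p ψ p' ψ' j) ^ 2 := by
  unfold Zw
  rw [map_sum]
  exact Finset.sum_congr rfl fun k _ => by rw [map_smul, map_mul, smul_eq_mul, sq (S.ev x _)]

lemma ev_Zw_nonneg (x : X) (p ψ p' ψ' : A) : 0 ≤ S.ev x (S.Zw w p ψ p' ψ') := by
  rw [ev_Zw]
  exact Finset.sum_nonneg fun j _ => mul_nonneg (sq_nonneg _) (sq_nonneg _)

lemma log_TD {ψ p : ℝ → A} (hψ : S.Heat ψ) (hp : ∀ s, 0 ≤ s → ψ s * p s = 1) (j : J) :
    S.TD (fun s => p s * S.D j (ψ s)) (fun s => S.D j (p s * Lap S.D (ψ s))) := by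
  have h1 : S.TD ψ fun s => Lap S.D (ψ s) := FC.TD hψ
  have h3 := h1.inv hp
  have h4 : S.TD (fun s => S.D j (ψ s)) fun s => Lap S.D (S.D j (ψ s)) := FC.TD (hψ.D j)
  refine (h3.mul h4).congr (fun s hs => rfl) fun s hs => ?_
  have h7 := D_inv (hp s hs.le) (S.D j)
  rw [Derivation.leibniz, smul_eq_mul, smul_eq_mul, h7, S.LapD]
  ring

lemma Zw_TD {ψ p ψ' p' : ℝ → A} (hψ : S.Heat ψ) (hp : ∀ s, 0 ≤ s → ψ s * p s = 1)
    (hψ' : S.Heat ψ') (hp' : ∀ s, 0 ≤ s → ψ' s * p' s = 1) (w : J → ℝ) :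
    S.TD (fun s => S.Zw w (p s) (ψ s) (p' s) (ψ' s))
      (fun s => (2 : ℝ) • ∑ j, (w j ^ 2) • (S.Z (p s) (ψ s) (p' s) (ψ' s) j *
        S.D j (p s * Lap S.D (ψ s) - p' s * Lap S.D (ψ' s)))) := by
  have h0 : ∀ j, S.TD (fun s => S.Z (p s) (ψ s) (p' s) (ψ' s) j)
      (fun s => S.D j (p s * Lap S.D (ψ s) - p' s * Lap S.D (ψ' s))) := by
    intro j
    refine ((log_TD hψ hp j).add (log_TD hψ' hp' j).neg).congr (fun s hs => ?_) fun s hs => ?_
    · unfold Z; ring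
    · rw [map_sub]; ring
  have h1 := TD.sum (S := S) Finset.univ fun j _ => ((h0 j).mul (h0 j)).smul (w j ^ 2)
  refine h1.congr (fun s hs => rfl) fun s hs => ?_
  rw [Finset.smul_sum]
  refine Finset.sum_congr rfl fun j _ => ?_
  rw [smul_comm, two_smul]
  congr 1
  ring

lemma lap_log {f p ℓ : A} (h : f * p = 1) (hl : ∀ j, S.D j ℓ = p * S.D j f) :
    p * Lap S.D f = Lap S.D ℓ + ∑ i, S.D i ℓ * S.D i ℓ := by
  unfold Lap
  rw [Finset.mul_sum, ← Finset.sum_add_distrib]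
  refine Finset.sum_congr rfl fun i _ => ?_
  rw [hl i, Derivation.leibniz, D_inv h, smul_eq_mul, smul_eq_mul]
  ring

/-- The evolution at a maximum of the weighted square of the difference. -/
lemma point_bound_z (hlog : S.HasLog) (hw : S.Wt w) {ψ p ψ' p' : A} (h : ψ * p = 1)
    (h' : ψ' * p' = 1) (hpos : ∀ x, 0 < S.ev x ψ) (hpos' : ∀ x, 0 < S.ev x ψ')
    {x : X} {Y : ℝ} (hY : 0 ≤ Y)
    (hx : ∀ x', S.ev x' (S.Zw w p ψ p' ψ') ≤ S.ev x (S.Zw w p ψ p' ψ'))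
    (hH : ∀ η : J → ℝ, ∑ k, η k ^ 2 = 1 → S.ev x (S.Gw w (p * S.Rw w η ψ)) ≤ Y ^ 2)
    (hH' : ∀ η : J → ℝ, ∑ k, η k ^ 2 = 1 → S.ev x (S.Gw w (p' * S.Rw w η ψ')) ≤ Y ^ 2) :
    S.ev x ((2 : ℝ) • ∑ j, (w j ^ 2) • (S.Z p ψ p' ψ' j *
        S.D j (p * Lap S.D ψ - p' * Lap S.D ψ'))) ≤
      (4 * Y - 2 * S.K) * S.ev x (S.Zw w p ψ p' ψ') := by
  obtain ⟨ℓ, hl⟩ := hlog ψ hpos
  obtain ⟨ℓ', hl'⟩ := hlog ψ' hpos'
  have hl1 := hl p h
  have hl1' := hl' p' h'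
  have hz : ∀ j, S.Z p ψ p' ψ' j = S.D j (ℓ - ℓ') := by
    intro j
    unfold Z
    rw [map_sub, hl1, hl1']
  have hZG : S.Zw w p ψ p' ψ' = S.Gw w (ℓ - ℓ') := by
    unfold Zw Gw
    simp only [hz]
  rw [hZG] at hx ⊢
  simp only [hz]
  refine point_w hw (fun i => (1 / 2 : ℝ) • (p * S.D i ψ + p' * S.D i ψ')) (ℓ - ℓ') _ ?_ hx ?_
  · rw [lap_log h hl1, lap_log h' hl1', Finset.smul_sum]
    have e1 : Lap S.D (ℓ - ℓ') = Lap S.D ℓ - Lap S.D ℓ' := by
      rw [sub_eq_add_neg, Lap_add]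
      have := Lap_smul (S := S) (-1) ℓ'
      rw [neg_one_smul, neg_one_smul] at this
      rw [this, sub_eq_add_neg]
    have e2 : ∑ i, (2 : ℝ) • ((1 / 2 : ℝ) • (p * S.D i ψ + p' * S.D i ψ') * S.D i (ℓ - ℓ')) =
        ∑ i, S.D i ℓ * S.D i ℓ - ∑ i, S.D i ℓ' * S.D i ℓ' := by
      rw [← Finset.sum_sub_distrib]
      refine Finset.sum_congr rfl fun i _ => ?_
      rw [smul_mul_assoc, smul_smul, ← hl1, ← hl1', map_sub]
      norm_num
      ring
    rw [e1, e2]; ring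
  · intro ξ
    have c1 := hess_le_w hw h hY hH ξ
    have c2 := hess_le_w hw h' hY hH' ξ
    have e : ∑ i, ∑ j, (w j * ξ j) * ((w i)⁻¹ * ξ i) *
        S.ev x (S.D j ((1 / 2 : ℝ) • (p * S.D i ψ + p' * S.D i ψ'))) =
        1 / 2 * (∑ i, ∑ j, (w j * ξ j) * ((w i)⁻¹ * ξ i) * S.ev x (S.D j (p * S.D i ψ)) +
          ∑ i, ∑ j, (w j * ξ j) * ((w i)⁻¹ * ξ i) * S.ev x (S.D j (p' * S.D i ψ'))) := by
      rw [← Finset.sum_add_distrib, Finset.mul_sum]
      refine Finset.sum_congr rfl fun i _ => ?_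
      rw [← Finset.sum_add_distrib, Finset.mul_sum]
      refine Finset.sum_congr rfl fun j _ => ?_
      rw [Derivation.map_smul, map_smul, map_add, map_add, smul_eq_mul]; ring
    rw [e]
    linarith

/-- Decay of the difference of the logarithmic derivatives. -/
lemma z_decay [CompactSpace X] (hlog : S.HasLog) (hw : S.Wt w) {ψ p ψ' p' : ℝ → A}
    (hψ : S.Heat ψ) (hp : ∀ s, 0 ≤ s → ψ s * p s = 1) (hpos : ∀ s, 0 ≤ s → ∀ x, 0 < S.ev x (ψ s))
    (hψ' : S.Heat ψ') (hp' : ∀ s, 0 ≤ s → ψ' s * p' s = 1)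
    (hpos' : ∀ s, 0 ≤ s → ∀ x, 0 < S.ev x (ψ' s)) {T Y κ C : ℝ} (hY : 0 ≤ Y)
    (hC : 0 < C) (hκ : κ < S.K - 2 * Y)
    (hH : ∀ s, 0 ≤ s → s ≤ T → ∀ x (η : J → ℝ), ∑ k, η k ^ 2 = 1 →
      S.ev x (S.Gw w (p s * S.Rw w η (ψ s))) ≤ Y ^ 2)
    (hH' : ∀ s, 0 ≤ s → s ≤ T → ∀ x (η : J → ℝ), ∑ k, η k ^ 2 = 1 →
      S.ev x (S.Gw w (p' s * S.Rw w η (ψ' s))) ≤ Y ^ 2)
    (h0 : ∀ x, S.ev x (S.Zw w (p 0) (ψ 0) (p' 0) (ψ' 0)) < C) :
    ∀ s, 0 ≤ s → s ≤ T → ∀ x,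
      S.ev x (S.Zw w (p s) (ψ s) (p' s) (ψ' s)) < C * Real.exp (-(2 * κ * s)) := by
  refine decay_gen (Zw_TD hψ hp hψ' hp' w) hC hκ (fun s hs hsT x hx => ?_) h0
  have h1 := point_bound_z hlog hw (hp s hs.le) (hp' s hs.le) (hpos s hs.le) (hpos' s hs.le)
    (x := x) hY hx (fun η hη => hH s hs.le hsT x η hη) fun η hη => hH' s hs.le hsT x η hη
  have h2 : (4 * Y - 2 * S.K) = -(2 * (S.K - 2 * Y)) := by ring
  rw [h2] at h1
  exact h1

/-- The inverse weights. -/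
lemma Wt.inv (hw : S.Wt w) : S.Wt fun j => (w j)⁻¹ where
  pos := fun j => inv_pos.2 (hw.pos j)
  sg13 := fun i j k h => hw.sg13 i j k fun h' => h (by rw [h'])
  sg12 := fun i j k h => hw.sg12 i j k fun h' => h (by rw [h'])
  rot := fun x j k h => hw.rot x j k fun h' => h (by rw [h'])

lemma pair_cs (hw : S.Wt w) (x : X) (p ψ p' ψ' v : A) {a c : ℝ} (ha : 0 ≤ a) (hc : 0 ≤ c)
    (h1 : S.ev x (S.Zw w p ψ p' ψ') ≤ a ^ 2)
    (h2 : S.ev x (S.Gw (fun j => (w j)⁻¹) v) ≤ c ^ 2) :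
    |∑ j, S.ev x (S.Z p ψ p' ψ' j) * S.ev x (S.D j v)| ≤ a * c := by
  rw [ev_Zw] at h1
  rw [ev_Gw] at h2
  have c1 := Finset.sum_mul_sq_le_sq_mul_sq Finset.univ
    (fun j => w j * S.ev x (S.Z p ψ p' ψ' j)) (fun j => (w j)⁻¹ * S.ev x (S.D j v))
  have e : ∑ j, (w j * S.ev x (S.Z p ψ p' ψ' j)) * ((w j)⁻¹ * S.ev x (S.D j v)) =
      ∑ j, S.ev x (S.Z p ψ p' ψ' j) * S.ev x (S.D j v) := by
    refine Finset.sum_congr rfl fun j _ => ?_
    have := (hw.pos j).ne'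
    field_simp
  simp only [mul_pow] at c1
  rw [e] at c1
  refine abs_le_of_sq_le_sq (c1.trans ?_) (mul_nonneg ha hc)
  rw [mul_pow]
  exact mul_le_mul h1 h2 (Finset.sum_nonneg fun j _ => by positivity) (sq_nonneg _)

/-- The difference of two quotients. -/
lemma quot_diff [CompactSpace X] (hw : S.Wt w) {ψ p u ψ' p' u' : ℝ → A}
    (hψ : S.Heat ψ) (hp : ∀ s, 0 ≤ s → ψ s * p s = 1) (hu : S.Heat u)
    (hψ' : S.Heat ψ') (hp' : ∀ s, 0 ≤ s → ψ' s * p' s = 1) (hu' : S.Heat u')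
    {T a c d : ℝ} (ha : 0 < a) (hc : 0 < c)
    (hZ : ∀ s, 0 ≤ s → s ≤ T → ∀ x, S.ev x (S.Zw w (p s) (ψ s) (p' s) (ψ' s)) < a ^ 2)
    (hG : ∀ s, 0 ≤ s → s ≤ T → ∀ x, S.ev x (S.Gw (fun j => (w j)⁻¹) (p' s * u' s)) < c ^ 2)
    (h0 : ∀ x, S.ev x (p 0 * u 0) - S.ev x (p' 0 * u' 0) < d) :
    ∀ s, 0 ≤ s → s ≤ T → ∀ x,
      S.ev x (p s * u s) - S.ev x (p' s * u' s) < d + 2 * a * c * s := by
  have hT : ∀ {ψ p u : ℝ → A}, S.Heat ψ → (∀ s, 0 ≤ s → ψ s * p s = 1) → S.Heat u →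
      S.TD (fun s => p s * u s)
        (fun s => p s * Lap S.D (u s) - p s * p s * u s * Lap S.D (ψ s)) := by
    intro ψ p u hψ hp hu
    have h1 : S.TD ψ fun s => Lap S.D (ψ s) := FC.TD hψ
    have h2 : S.TD u fun s => Lap S.D (u s) := FC.TD hu
    refine ((h1.inv hp).mul h2).congr (fun s hs => rfl) fun s hs => ?_
    ring
  have hTD := (hT hψ hp hu).add (hT hψ' hp' hu').neg
  have key := first_touch (Z := X) (T := T)
    (f := fun s z => S.ev z (p s * u s + -(p' s * u' s)) - (d + 2 * a * c * s))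
    (f' := fun s z => S.ev z ((p s * Lap S.D (u s) - p s * p s * u s * Lap S.D (ψ s)) +
      -(p' s * Lap S.D (u' s) - p' s * p' s * u' s * Lap S.D (ψ' s))) - 2 * a * c)
    ?_ ?_ ?_ ?_
  · intro s hs hsT x
    have := key s hs hsT x
    rw [map_add, map_neg] at this
    linarith
  · refine ContinuousOn.sub ?_ (by fun_prop)
    exact hTD.jc.mono (prod_mono (fun s hs => hs.1) subset_rfl)
  · intro x
    have := h0 x
    simp only [mul_zero, add_zero]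
    rw [map_add, map_neg]
    linarith
  · intro s hs hsT x
    refine HasDerivAt.sub (hTD.d x s hs) ?_
    have := ((hasDerivAt_id s).const_mul (2 * a * c)).const_add d
    simpa using this
  · intro s hs hsT x hz hmx
    obtain ⟨y, hy⟩ : ∃ y, y = p s * u s := ⟨_, rfl⟩
    obtain ⟨y', hy'⟩ : ∃ y', y' = p' s * u' s := ⟨_, rfl⟩
    have hmax : ∀ x', S.ev x' (y - y') ≤ S.ev x (y - y') := by
      intro x'
      have := hmx x'
      rw [← hy, ← hy', ← sub_eq_add_neg] at this hz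
      linarith
    rw [quot_eq (hp s hs.le), quot_eq (hp' s hs.le), ← hy, ← hy']
    have h1 := ev_Lap_nonpos hmax
    have h2 := S.max1 _ x hmax
    have e1 : Lap S.D (y - y') = Lap S.D y - Lap S.D y' := by
      rw [sub_eq_add_neg, Lap_add]
      have := Lap_smul (S := S) (-1) y'
      rw [neg_one_smul, neg_one_smul] at this
      rw [this, sub_eq_add_neg]
    have h3 : ∀ i, S.ev x (S.D i y) = S.ev x (S.D i y') := by
      intro i
      have := h2 i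
      rw [map_sub, map_sub] at this
      linarith
    have h4 : S.ev x ((Lap S.D y + (2 : ℝ) • ∑ i, (p s * S.D i (ψ s)) * S.D i y) +
        -(Lap S.D y' + (2 : ℝ) • ∑ i, (p' s * S.D i (ψ' s)) * S.D i y')) =
        S.ev x (Lap S.D (y - y')) + 2 * ∑ j, S.ev x (S.Z (p s) (ψ s) (p' s) (ψ' s) j) *
          S.ev x (S.D j y') := by
      rw [e1, map_add, map_neg, map_add, map_add, map_smul, map_smul, map_sum, map_sum, map_sub,
        smul_eq_mul, smul_eq_mul]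
      have e2 : ∑ j, S.ev x (S.Z (p s) (ψ s) (p' s) (ψ' s) j) * S.ev x (S.D j y') =
          ∑ i, S.ev x ((p s * S.D i (ψ s)) * S.D i y) -
            ∑ i, S.ev x ((p' s * S.D i (ψ' s)) * S.D i y') := by
        rw [← Finset.sum_sub_distrib]
        refine Finset.sum_congr rfl fun i _ => ?_
        unfold Z
        rw [map_mul (S.ev x) (p s * S.D i (ψ s)), map_mul (S.ev x) (p' s * S.D i (ψ' s)), h3 i,
          map_sub]
        ring
      rw [e2]; ring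
    rw [h4]
    -- strict Cauchy-Schwarz
    have h5 := hZ s hs.le hsT x
    have h6 := hG s hs.le hsT x
    rw [← hy'] at h6
    obtain ⟨a', ha'⟩ : ∃ a', a' = Real.sqrt (S.ev x (S.Zw w (p s) (ψ s) (p' s) (ψ' s))) :=
      ⟨_, rfl⟩
    have ha'0 : 0 ≤ a' := by rw [ha']; exact Real.sqrt_nonneg _
    have ha'2 : S.ev x (S.Zw w (p s) (ψ s) (p' s) (ψ' s)) = a' ^ 2 := by
      rw [ha', Real.sq_sqrt (ev_Zw_nonneg _ _ _ _ _)]
    have ha'1 : a' < a := by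
      rw [ha'2] at h5
      exact lt_of_pow_lt_pow_left₀ 2 ha.le h5
    have h7 := pair_cs hw x (p s) (ψ s) (p' s) (ψ' s) y' ha'0 hc.le ha'2.le h6.le
    have h8 := (le_abs_self _).trans h7
    have h9 : a' * c < a * c := mul_lt_mul_of_pos_right ha'1 hc
    linarith

end Geo

end

end Pool.Agent.W504.YM
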