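import Mathlib
import Pool.Agent.W504.YW.W2

/-!
# The scheme for two systems
-/

open Pool.Agent.H906R3.YM Filter Topology Set

namespace Pool.Agent.W504.YM

noncomputable section

variable {A : Type*} [CommRing A] [Algebra ℝ A] {J X : Type*} [Fintype J] [DecidableEq J]
    [TopologicalSpace X]

namespace Geo

/-- A positive function with a bound for the weighted second derivatives of its logarithm. -/
structure Good (S : Geo A J X) (w : J → ℝ) (Y : ℝ) (ψ : A) : Prop where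
  rep : S.Rep ψ
  pos : ∀ x, 0 < S.ev x ψ
  hess : ∀ p, ψ * p = 1 → ∀ x (η : J → ℝ), ∑ k, η k ^ 2 = 1 →
    S.ev x (S.Gw w (p * S.Rw w η ψ)) ≤ Y ^ 2

variable {S : Geo A J X} {w : J → ℝ}

lemma Good.mono {Y Y' : ℝ} {ψ : A} (h : S.Good w Y ψ) (hY : 0 ≤ Y) (hYY : Y ≤ Y') :
    S.Good w Y' ψ :=
  ⟨h.rep, h.pos, fun p hp x η hη => (h.hess p hp x η hη).trans (pow_le_pow_left₀ hY hYY 2)⟩

lemma Rw_mul (η : J → ℝ) (f g : A) : S.Rw w η (f * g) = f * S.Rw w η g + g * S.Rw w η f :=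
  Rη_mul _ f g

lemma Gw_add_le {f g : A} {x : X} {a b : ℝ} (ha : 0 ≤ a) (hb : 0 ≤ b)
    (hf : S.ev x (S.Gw w f) ≤ a ^ 2) (hg : S.ev x (S.Gw w g) ≤ b ^ 2) :
    S.ev x (S.Gw w (f + g)) ≤ (a + b) ^ 2 := by
  rw [ev_Gw] at hf hg ⊢
  have h1 := vec_add_le (f := fun j => w j * S.ev x (S.D j f))
    (g := fun j => w j * S.ev x (S.D j g)) ha hb (by simpa only [mul_pow] using hf)
    (by simpa only [mul_pow] using hg)
  refine le_trans (le_of_eq ?_) h1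
  refine Finset.sum_congr rfl fun j _ => ?_
  rw [map_add, map_add]; ring

/-- The product of two good functions. -/
lemma Good.mul {Y Y' : ℝ} {ψ φ : A} (h : S.Good w Y ψ) (h' : S.Good w Y' φ) (hY : 0 ≤ Y)
    (hY' : 0 ≤ Y') : S.Good w (Y + Y') (ψ * φ) := by
  refine ⟨h.rep.mul h'.rep, fun x => by rw [map_mul]; exact mul_pos (h.pos x) (h'.pos x), ?_⟩
  intro p hp x η hη
  obtain ⟨p1, hp1⟩ := S.inv _ h.pos
  obtain ⟨p2, hp2⟩ := S.inv _ h'.pos
  have e0 : p = p1 * p2 := inv_unique hp (by linear_combination (φ * p2) * hp1 + hp2)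
  have e : p * S.Rw w η (ψ * φ) = p1 * S.Rw w η ψ + p2 * S.Rw w η φ := by
    rw [Rw_mul, e0]
    linear_combination (p1 * S.Rw w η ψ) * hp2 + (p2 * S.Rw w η φ) * hp1
  rw [e]
  exact Gw_add_le hY hY' (h.hess p1 hp1 x η hη) (h'.hess p2 hp2 x η hη)

/-- The conditions for the barrier during one step. -/
structure Bar (S : Geo A J X) (τ b b1 Y : ℝ) : Prop where
  hτ : 0 < τ
  hb1 : 0 ≤ b1
  hbb : b1 < b
  hY : 0 < Y
  bar : ∀ s, 0 ≤ s → s ≤ τ → 2 * (Y + b * (τ - s)) ^ 2 - S.K * (Y + b * (τ - s)) + b < 0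

/-- One step for one function. -/
lemma good_step [CompactSpace X] (hw : S.Wt w) {τ b b1 Y : ℝ} (hb : S.Bar τ b b1 Y) {a ψ : A}
    (ha : S.Good w (b1 * τ) a) (hψ : S.Good w Y ψ) :
    (∀ s, 0 ≤ s → ∀ x, 0 < S.ev x (S.P s (a * ψ))) ∧ S.Good w Y (S.St a τ ψ) ∧
    ∀ s, 0 ≤ s → s ≤ τ → ∀ p, S.P s (a * ψ) * p = 1 →
      ∀ x (η : J → ℝ), ∑ k, η k ^ 2 = 1 →
        S.ev x (S.Gw w (p * S.Rw w η (S.P s (a * ψ)))) ≤ (Y + b * τ) ^ 2 := by
  have hb0 : 0 ≤ b := hb.hb1.trans hb.hbb.le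
  have hprod := ha.mul hψ (mul_nonneg hb.hb1 hb.hτ.le) hb.hY.le
  have haψ := hprod.rep
  have hposs : ∀ s, 0 ≤ s → ∀ x, 0 < S.ev x (S.P s (a * ψ)) := fun s hs x =>
    P_pos haψ hprod.pos hs x
  have hex : ∀ s, ∃ g, 0 ≤ s → S.P s (a * ψ) * g = 1 := by
    intro s
    by_cases hs : 0 ≤ s
    · obtain ⟨g, hg⟩ := S.inv _ (hposs s hs)
      exact ⟨g, fun _ => hg⟩
    · exact ⟨0, fun h => absurd h hs⟩
  choose pc hpc using hex
  have h0 : ∀ x (η : J → ℝ), ∑ k, η k ^ 2 = 1 →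
      S.ev x (S.Gw w (pc 0 * S.Rw w η (S.P 0 (a * ψ)))) < (Y + b * τ) ^ 2 := by
    intro x η hη
    have h1 := hpc 0 le_rfl
    rw [P_zero haψ] at h1 ⊢
    refine (hprod.hess _ h1 x η hη).trans_lt ?_
    have h2 := mul_lt_mul_of_pos_right hb.hbb hb.hτ
    have h3 := mul_nonneg hb.hb1 hb.hτ.le
    have h4 := hb.hY
    exact pow_lt_pow_left₀ (by linarith) (by linarith) two_ne_zero
  have hbarr := hess_barrier_w hw (P_heat haψ) hpc (T := τ) hb0 hb.hY hb.bar h0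
  refine ⟨hposs, ⟨P_rep haψ τ, hposs τ hb.hτ.le, ?_⟩, ?_⟩
  · intro p hp x η hη
    have h1 : p = pc τ := inv_unique hp (hpc τ hb.hτ.le)
    have h2 := hbarr τ hb.hτ.le le_rfl x η hη
    rw [sub_self, mul_zero, add_zero] at h2
    rw [h1]
    exact h2.le
  · intro s hs hsτ p hp x η hη
    have h1 : p = pc s := inv_unique hp (hpc s hs)
    rw [h1]
    refine (hbarr s hs hsτ x η hη).le.trans ?_
    have h2 : 0 ≤ b * (τ - s) := mul_nonneg hb0 (by linarith)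
    have h3 : b * (τ - s) ≤ b * τ := mul_le_mul_of_nonneg_left (by linarith) hb0
    have h4 := hb.hY
    exact pow_le_pow_left₀ (by linarith) (by linarith) 2

/-- One step for the gradient of a quotient. -/
lemma grad_step [CompactSpace X] (hw : S.Wt w) {τ b b1 Y κ : ℝ} (hb : S.Bar τ b b1 Y) {a ψ : A}
    (ha : S.Good w (b1 * τ) a) (hψ : S.Good w Y ψ) (hκ : κ < S.K - 2 * (Y + b * τ)) {u p : A}
    (hu : S.Rep u) (hp : ψ * p = 1) {c : ℝ} (hc : 0 < c)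
    (h0 : ∀ x, S.ev x (S.Gw w (p * u)) < c ^ 2) :
    ∀ s, 0 ≤ s → s ≤ τ → ∀ ps, S.P s (a * ψ) * ps = 1 → ∀ x,
      S.ev x (S.Gw w (ps * S.P s (a * u))) < (c * Real.exp (-(κ * s))) ^ 2 := by
  obtain ⟨hposs, -, hin⟩ := good_step hw hb ha hψ
  have haψ := ha.rep.mul hψ.rep
  have hau := ha.rep.mul hu
  obtain ⟨q, hq⟩ := S.inv _ ha.pos
  have hex : ∀ s, ∃ g, 0 ≤ s → S.P s (a * ψ) * g = 1 := by
    intro s
    by_cases hs : 0 ≤ s
    · obtain ⟨g, hg⟩ := S.inv _ (hposs s hs)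
      exact ⟨g, fun _ => hg⟩
    · exact ⟨0, fun h => absurd h hs⟩
  choose pc hpc using hex
  have hY0 : 0 ≤ Y + b * τ := add_nonneg hb.hY.le (mul_nonneg (hb.hb1.trans hb.hbb.le) hb.hτ.le)
  have hpc0 : pc 0 = q * p := by
    refine inv_unique (hpc 0 le_rfl) ?_
    rw [P_zero haψ]
    linear_combination (ψ * p) * hq + hp
  have h1 := grad_decay_w hw (P_heat haψ) hpc (P_heat hau) (T := τ) (κ := κ) (C := c ^ 2) hY0
    (by positivity) hκ (fun s hs hsτ x η hη => hin s hs hsτ _ (hpc s hs) x η hη) (by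
      intro x
      rw [P_zero hau, hpc0]
      have e : q * p * (a * u) = p * u := by linear_combination (p * u) * hq
      rw [e]
      exact h0 x)
  intro s hs hsτ ps hps x
  have e : ps = pc s := inv_unique hps (hpc s hs)
  rw [e]
  have h2 := h1 s hs hsτ x
  have e2 : (c * Real.exp (-(κ * s))) ^ 2 = c ^ 2 * Real.exp (-(2 * κ * s)) := by
    rw [mul_pow, ← Real.exp_nat_mul]
    congr 2
    push_cast; ring
  rw [e2]
  exact h2

/-- products in the difference of the logarithmic derivatives -/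
lemma Z_mul {a q ψ p a' q' ψ' p' : A} (hq : a * q = 1) (hp : ψ * p = 1) (hq' : a' * q' = 1)
    (hp' : ψ' * p' = 1) (j : J) :
    S.Z (q * p) (a * ψ) (q' * p') (a' * ψ') j = S.Z q a q' a' j + S.Z p ψ p' ψ' j := by
  unfold Z
  rw [Derivation.leibniz, Derivation.leibniz, smul_eq_mul, smul_eq_mul, smul_eq_mul, smul_eq_mul]
  linear_combination (p * S.D j ψ) * hq + (q * S.D j a) * hp - (p' * S.D j ψ') * hq' -
    (q' * S.D j a') * hp'

lemma vec_add_lt {f g : J → ℝ} {a b : ℝ} (ha : 0 < a) (hb : 0 ≤ b)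
    (hf : ∑ j, f j ^ 2 < a ^ 2) (hg : ∑ j, g j ^ 2 ≤ b ^ 2) :
    ∑ j, (f j + g j) ^ 2 < (a + b) ^ 2 := by
  obtain ⟨a', ha'⟩ : ∃ a', a' = Real.sqrt (∑ j, f j ^ 2) := ⟨_, rfl⟩
  have hn : 0 ≤ ∑ j, f j ^ 2 := Finset.sum_nonneg fun k _ => sq_nonneg _
  have ha'0 : 0 ≤ a' := by rw [ha']; exact Real.sqrt_nonneg _
  have ha'2 : ∑ j, f j ^ 2 = a' ^ 2 := by rw [ha', Real.sq_sqrt hn]
  have ha'1 : a' < a := by
    rw [ha'2] at hf
    exact lt_of_pow_lt_pow_left₀ 2 ha.le hf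
  refine (vec_add_le ha'0 hb ha'2.le hg).trans_lt ?_
  exact pow_lt_pow_left₀ (by linarith) (by linarith) two_ne_zero

/-- One step for the difference of the logarithmic derivatives of two systems. -/
lemma z_step [CompactSpace X] (hlog : S.HasLog) (hw : S.Wt w) {τ b b1 Y κ : ℝ}
    (hb : S.Bar τ b b1 Y) {a ψ a' ψ' q q' p p' : A}
    (ha : S.Good w (b1 * τ) a) (hψ : S.Good w Y ψ)
    (ha' : S.Good w (b1 * τ) a') (hψ' : S.Good w Y ψ')
    (hκ : κ < S.K - 2 * (Y + b * τ)) (hq : a * q = 1) (hq' : a' * q' = 1)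
    (hp : ψ * p = 1) (hp' : ψ' * p' = 1) {z ζ : ℝ} (hz : 0 < z) (hζ : 0 ≤ ζ)
    (h0 : ∀ x, S.ev x (S.Zw w p ψ p' ψ') < z ^ 2)
    (h1 : ∀ x, S.ev x (S.Zw w q a q' a') ≤ ζ ^ 2) :
    ∀ s, 0 ≤ s → s ≤ τ → ∀ ps ps', S.P s (a * ψ) * ps = 1 → S.P s (a' * ψ') * ps' = 1 → ∀ x,
      S.ev x (S.Zw w ps (S.P s (a * ψ)) ps' (S.P s (a' * ψ'))) <
        ((z + ζ) * Real.exp (-(κ * s))) ^ 2 := by
  obtain ⟨hposs, -, hin⟩ := good_step hw hb ha hψ
  obtain ⟨hposs', -, hin'⟩ := good_step hw hb ha' hψ'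
  have haψ := ha.rep.mul hψ.rep
  have haψ' := ha'.rep.mul hψ'.rep
  have hex : ∀ s, ∃ g, 0 ≤ s → S.P s (a * ψ) * g = 1 := by
    intro s
    by_cases hs : 0 ≤ s
    · obtain ⟨g, hg⟩ := S.inv _ (hposs s hs)
      exact ⟨g, fun _ => hg⟩
    · exact ⟨0, fun h => absurd h hs⟩
  have hex' : ∀ s, ∃ g, 0 ≤ s → S.P s (a' * ψ') * g = 1 := by
    intro s
    by_cases hs : 0 ≤ s
    · obtain ⟨g, hg⟩ := S.inv _ (hposs' s hs)
      exact ⟨g, fun _ => hg⟩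
    · exact ⟨0, fun h => absurd h hs⟩
  choose pc hpc using hex
  choose pc' hpc' using hex'
  have hY0 : 0 ≤ Y + b * τ := add_nonneg hb.hY.le (mul_nonneg (hb.hb1.trans hb.hbb.le) hb.hτ.le)
  have hpc0 : pc 0 = q * p := by
    refine inv_unique (hpc 0 le_rfl) ?_
    rw [P_zero haψ]
    linear_combination (ψ * p) * hq + hp
  have hpc0' : pc' 0 = q' * p' := by
    refine inv_unique (hpc' 0 le_rfl) ?_
    rw [P_zero haψ']
    linear_combination (ψ' * p') * hq' + hp'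
  have h2 := z_decay hlog hw (P_heat haψ) hpc hposs (P_heat haψ') hpc' hposs' (T := τ) (κ := κ)
    (C := (z + ζ) ^ 2) hY0 (by positivity) hκ
    (fun s hs hsτ x η hη => hin s hs hsτ _ (hpc s hs) x η hη)
    (fun s hs hsτ x η hη => hin' s hs hsτ _ (hpc' s hs) x η hη) (by
      intro x
      rw [P_zero haψ, P_zero haψ', hpc0, hpc0', ev_Zw]
      have h3 := h0 x
      have h4 := h1 x
      rw [ev_Zw] at h3 h4
      have h5 := vec_add_lt (f := fun j => w j * S.ev x (S.Z p ψ p' ψ' j))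
        (g := fun j => w j * S.ev x (S.Z q a q' a' j)) hz hζ
        (by simpa only [mul_pow] using h3) (by simpa only [mul_pow] using h4)
      refine lt_of_eq_of_lt ?_ h5
      refine Finset.sum_congr rfl fun j _ => ?_
      rw [Z_mul hq hp hq' hp', map_add]; ring)
  intro s hs hsτ ps ps' hps hps' x
  have e : ps = pc s := inv_unique hps (hpc s hs)
  have e' : ps' = pc' s := inv_unique hps' (hpc' s hs)
  rw [e, e']
  have h3 := h2 s hs hsτ x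
  have e2 : ((z + ζ) * Real.exp (-(κ * s))) ^ 2 = (z + ζ) ^ 2 * Real.exp (-(2 * κ * s)) := by
    rw [mul_pow, ← Real.exp_nat_mul]
    congr 2
    push_cast; ring
  rw [e2]
  exact h3

/-- the difference of two quotients, both signs -/
lemma quot_diff_abs [CompactSpace X] (hw : S.Wt w) {ψ p u ψ' p' u' : ℝ → A}
    (hψ : S.Heat ψ) (hp : ∀ s, 0 ≤ s → ψ s * p s = 1) (hu : S.Heat u)
    (hψ' : S.Heat ψ') (hp' : ∀ s, 0 ≤ s → ψ' s * p' s = 1) (hu' : S.Heat u')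
    {T a c d : ℝ} (ha : 0 < a) (hc : 0 < c)
    (hZ : ∀ s, 0 ≤ s → s ≤ T → ∀ x, S.ev x (S.Zw w (p s) (ψ s) (p' s) (ψ' s)) < a ^ 2)
    (hG : ∀ s, 0 ≤ s → s ≤ T → ∀ x, S.ev x (S.Gw (fun j => (w j)⁻¹) (p' s * u' s)) < c ^ 2)
    (h0 : ∀ x, |S.ev x (p 0 * u 0) - S.ev x (p' 0 * u' 0)| < d) :
    ∀ s, 0 ≤ s → s ≤ T → ∀ x,
      |S.ev x (p s * u s) - S.ev x (p' s * u' s)| < d + 2 * a * c * s := by
  intro s hs hsT x
  have h1 := quot_diff hw hψ hp hu hψ' hp' hu' ha hc hZ hG (d := d)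
    (fun x => (le_abs_self _).trans_lt (h0 x)) s hs hsT x
  have hn : ∀ (q v : A), q * ((-1 : ℝ) • v) = (-1 : ℝ) • (q * v) := fun q v => mul_smul_comm _ _ _
  have h2 := quot_diff hw hψ hp (hu.smul (-1)) hψ' hp' (hu'.smul (-1)) ha hc hZ (by
      intro s hs hsT x
      rw [hn, Gw_smul, map_smul, smul_eq_mul]
      have := hG s hs hsT x
      linarith) (d := d)
    (fun x => by
      rw [hn, hn, map_smul, map_smul, smul_eq_mul, smul_eq_mul]
      have := (abs_lt.1 (h0 x)).1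
      linarith) s hs hsT x
  rw [hn, hn, map_smul, map_smul, smul_eq_mul, smul_eq_mul] at h2
  rw [abs_lt]
  constructor <;> linarith

/-- The state of the comparison of two systems. -/
structure Cmp (S : Geo A J X) (w : J → ℝ) (Y : ℝ) (ψ ψ' u u' : A) (z c d : ℝ) : Prop where
  g : S.Good w Y ψ
  g' : S.Good w Y ψ'
  gi : S.Good (fun j => (w j)⁻¹) Y ψ'
  ru : S.Rep u
  ru' : S.Rep u'
  zz : ∀ p p', ψ * p = 1 → ψ' * p' = 1 → ∀ x, S.ev x (S.Zw w p ψ p' ψ') < z ^ 2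
  cc : ∀ p', ψ' * p' = 1 → ∀ x, S.ev x (S.Gw (fun j => (w j)⁻¹) (p' * u')) < c ^ 2
  dd : ∀ p p', ψ * p = 1 → ψ' * p' = 1 → ∀ x, |S.ev x (p * u) - S.ev x (p' * u')| < d

/-- One step of the comparison. -/
lemma Cmp.step [CompactSpace X] (hlog : S.HasLog) (hw : S.Wt w) {τ b b1 Y κ : ℝ}
    (hb : S.Bar τ b b1 Y) (hκ : κ < S.K - 2 * (Y + b * τ)) (hκ0 : 0 ≤ κ) {a a' : A}
    (ha : S.Good w (b1 * τ) a) (ha' : S.Good w (b1 * τ) a')
    (hai : S.Good (fun j => (w j)⁻¹) (b1 * τ) a') {ζ : ℝ} (hζ : 0 ≤ ζ)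
    (h1 : ∀ q q', a * q = 1 → a' * q' = 1 → ∀ x, S.ev x (S.Zw w q a q' a') ≤ ζ ^ 2)
    {ψ ψ' u u' : A} {z c d : ℝ} (hz : 0 < z) (hc : 0 < c) (h : S.Cmp w Y ψ ψ' u u' z c d) :
    S.Cmp w Y (S.St a τ ψ) (S.St a' τ ψ') (S.St a τ u) (S.St a' τ u')
      ((z + ζ) * Real.exp (-(κ * τ))) (c * Real.exp (-(κ * τ))) (d + 2 * (z + ζ) * c * τ) := by
  obtain ⟨q, hq⟩ := S.inv _ ha.pos
  obtain ⟨q', hq'⟩ := S.inv _ ha'.pos
  obtain ⟨p, hp⟩ := S.inv _ h.g.pos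
  obtain ⟨p', hp'⟩ := S.inv _ h.g'.pos
  obtain ⟨hposs, hg, -⟩ := good_step hw hb ha h.g
  obtain ⟨hposs', hg', -⟩ := good_step hw hb ha' h.g'
  obtain ⟨-, hgi, -⟩ := good_step hw.inv hb hai h.gi
  have hτ := hb.hτ
  have hzs := z_step hlog hw hb ha h.g ha' h.g' hκ hq hq' hp hp' hz hζ (h.zz p p' hp hp')
    (h1 q q' hq hq')
  have hgs := grad_step hw.inv hb hai h.gi hκ h.ru' hp' hc (h.cc p' hp')
  have haψ := ha.rep.mul h.g.rep
  have haψ' := ha'.rep.mul h.g'.rep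
  have hau := ha.rep.mul h.ru
  have hau' := ha'.rep.mul h.ru'
  refine ⟨hg, hg', hgi, P_rep hau τ, P_rep hau' τ, ?_, ?_, ?_⟩
  · intro p1 p1' hp1 hp1' x
    exact hzs τ hτ.le le_rfl p1 p1' hp1 hp1' x
  · intro p1' hp1' x
    exact hgs τ hτ.le le_rfl p1' hp1' x
  · intro p1 p1' hp1 hp1' x
    have hex : ∀ s, ∃ g, 0 ≤ s → S.P s (a * ψ) * g = 1 := by
      intro s
      by_cases hs : 0 ≤ s
      · obtain ⟨g, hg⟩ := S.inv _ (hposs s hs)
        exact ⟨g, fun _ => hg⟩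
      · exact ⟨0, fun h => absurd h hs⟩
    have hex' : ∀ s, ∃ g, 0 ≤ s → S.P s (a' * ψ') * g = 1 := by
      intro s
      by_cases hs : 0 ≤ s
      · obtain ⟨g, hg⟩ := S.inv _ (hposs' s hs)
        exact ⟨g, fun _ => hg⟩
      · exact ⟨0, fun h => absurd h hs⟩
    choose pc hpc using hex
    choose pc' hpc' using hex'
    have hpc0 : pc 0 = q * p := by
      refine inv_unique (hpc 0 le_rfl) ?_
      rw [P_zero haψ]
      linear_combination (ψ * p) * hq + hp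
    have hpc0' : pc' 0 = q' * p' := by
      refine inv_unique (hpc' 0 le_rfl) ?_
      rw [P_zero haψ']
      linear_combination (ψ' * p') * hq' + hp'
    have hexp : ∀ s, 0 ≤ s → Real.exp (-(κ * s)) ≤ 1 := fun s hs => by
      rw [Real.exp_le_one_iff]
      have := mul_nonneg hκ0 hs
      linarith
    have h2 := quot_diff_abs hw (P_heat haψ) hpc (P_heat hau) (P_heat haψ') hpc' (P_heat hau')
      (T := τ) (a := z + ζ) (c := c) (d := d) (by linarith) hc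
      (fun s hs hsτ x => (hzs s hs hsτ _ _ (hpc s hs) (hpc' s hs) x).trans_le
        (pow_le_pow_left₀ (by positivity) (mul_le_of_le_one_right (by linarith) (hexp s hs)) 2))
      (fun s hs hsτ x => (hgs s hs hsτ _ (hpc' s hs) x).trans_le
        (pow_le_pow_left₀ (by positivity) (mul_le_of_le_one_right hc.le (hexp s hs)) 2)) (by
        intro x
        rw [P_zero hau, P_zero hau', hpc0, hpc0']
        have e : q * p * (a * u) = p * u := by linear_combination (p * u) * hq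
        have e' : q' * p' * (a' * u') = p' * u' := by linear_combination (p' * u') * hq'
        rw [e, e']
        exact h.dd p p' hp hp' x) τ hτ.le le_rfl x
    have e : p1 = pc τ := inv_unique hp1 (hpc τ hτ.le)
    have e' : p1' = pc' τ := inv_unique hp1' (hpc' τ hτ.le)
    rw [e, e']
    exact h2

lemma Cmp.mono {ψ ψ' u u' : A} {Y z c d z' c' d' : ℝ} (h : S.Cmp w Y ψ ψ' u u' z c d)
    (hz0 : 0 ≤ z) (hz : z ≤ z') (hc0 : 0 ≤ c) (hc : c ≤ c') (hd : d ≤ d') :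
    S.Cmp w Y ψ ψ' u u' z' c' d' :=
  ⟨h.g, h.g', h.gi, h.ru, h.ru', fun p p' hp hp' x => (h.zz p p' hp hp' x).trans_le
    (pow_le_pow_left₀ hz0 hz 2), fun p' hp' x => (h.cc p' hp' x).trans_le
    (pow_le_pow_left₀ hc0 hc 2), fun p p' hp hp' x => (h.dd p p' hp hp' x).trans_le hd⟩

/-- All steps of the comparison. -/
lemma Cmp.steps [CompactSpace X] (hlog : S.HasLog) (hw : S.Wt w) {τ b b1 Y κ : ℝ}
    (hb : S.Bar τ b b1 Y) (hκ : κ < S.K - 2 * (Y + b * τ)) (hκ0 : 0 ≤ κ) {a a' : A}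
    (ha : S.Good w (b1 * τ) a) (ha' : S.Good w (b1 * τ) a')
    (hai : S.Good (fun j => (w j)⁻¹) (b1 * τ) a') {ζ : ℝ} (hζ : 0 ≤ ζ)
    (h1 : ∀ q q', a * q = 1 → a' * q' = 1 → ∀ x, S.ev x (S.Zw w q a q' a') ≤ ζ ^ 2)
    {ψ ψ' u u' : A} {z : ℕ → ℝ} {c d : ℝ} (hz : ∀ k, 0 < z k) (hc : 0 < c)
    (hzz : ∀ k, (z k + ζ) * Real.exp (-(κ * τ)) ≤ z (k + 1))
    (h : S.Cmp w Y ψ ψ' u u' (z 0) c d) (k : ℕ) :
    S.Cmp w Y ((S.St a τ)^[k] ψ) ((S.St a' τ)^[k] ψ') ((S.St a τ)^[k] u) ((S.St a' τ)^[k] u')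
      (z k) (c * Real.exp (-(κ * τ)) ^ k)
      (d + ∑ i ∈ Finset.range k, 2 * (z i + ζ) * (c * Real.exp (-(κ * τ)) ^ i) * τ) := by
  induction k with
  | zero => simpa using h
  | succ k ih =>
    simp only [Function.iterate_succ_apply']
    have h2 := Cmp.step hlog hw hb hκ hκ0 ha ha' hai hζ h1 (hz k)
      (mul_pos hc (pow_pos (Real.exp_pos _) k)) ih
    have hz0 : 0 ≤ (z k + ζ) * Real.exp (-(κ * τ)) :=
      mul_nonneg (by linarith [hz k]) (Real.exp_pos _).le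
    refine h2.mono hz0 (hzz k) (by positivity) (le_of_eq ?_) (le_of_eq ?_)
    · rw [pow_succ]; ring
    · rw [Finset.sum_range_succ]; ring

end Geo

end

end Pool.Agent.W504.YM
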