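import Mathlib
import Pool.Agent.W504.YW.W3

/-!
# Expectations: comparison of two systems, covariances
-/

open Pool.Agent.H906R3.YM Filter Topology Set

namespace Pool.Agent.W504.YM

noncomputable section

variable {A : Type*} [CommRing A] [Algebra ℝ A] {J X : Type*} [Fintype J] [DecidableEq J]
    [TopologicalSpace X]

namespace Geo

variable {S : Geo A J X} {w : J → ℝ}

lemma I_pos [CompactSpace X] [Nonempty X] {f : A} (h : ∀ x, 0 < S.ev x f) : 0 < S.I f := by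
  obtain ⟨x1⟩ := (inferInstance : Nonempty X)
  obtain ⟨x0, -, hx0⟩ := isCompact_univ.exists_isMinOn ⟨x1, trivial⟩ (S.cont f).continuousOn
  have h1 := S.I_mono (f := (S.ev x0 f) • (1 : A)) (g := f) fun x => by
    rw [map_smul, map_one, smul_eq_mul, mul_one]
    exact hx0 (mem_univ x)
  rw [map_smul, S.I_one, smul_eq_mul, mul_one] at h1
  exact (h0 x0).trans_le h1
where
  h0 := h

lemma sym_it {a : A} (ha : S.Rep a) {f g : A} (hf : S.Rep f) (hg : S.Rep g) (τ : ℝ) (k : ℕ) :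
    S.I (a * (f * (S.St a τ)^[k] g)) = S.I (a * ((S.St a τ)^[k] f * g)) := by
  induction k generalizing f g with
  | zero => rfl
  | succ k ih =>
    rw [Function.iterate_succ_apply, ih hf (St_rep ha hg τ), St_symm ha (It_rep ha hf τ k) hg,
      ← Function.iterate_succ_apply' (S.St a τ)]

/-- Two averages are close. -/
lemma avg_close [CompactSpace X] [Nonempty X] {a χ φ p a' χ' φ' p' : A} (ha : ∀ x, 0 < S.ev x a)
    (hχ : ∀ x, 0 < S.ev x χ) (hp : χ * p = 1) (ha' : ∀ x, 0 < S.ev x a')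
    (hχ' : ∀ x, 0 < S.ev x χ') (hp' : χ' * p' = 1) {d o : ℝ}
    (hd : ∀ x, |S.ev x (p * φ) - S.ev x (p' * φ')| ≤ d)
    (ho : ∀ x y, S.ev x (p' * φ') - S.ev y (p' * φ') ≤ o) :
    |S.I (a * φ) / S.I (a * χ) - S.I (a' * φ') / S.I (a' * χ')| ≤ d + o := by
  have hI : 0 < S.I (a * χ) := I_pos fun x => by rw [map_mul]; exact mul_pos (ha x) (hχ x)
  have hI' : 0 < S.I (a' * χ') := I_pos fun x => by rw [map_mul]; exact mul_pos (ha' x) (hχ' x)
  obtain ⟨x1⟩ := (inferInstance : Nonempty X)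
  obtain ⟨xm, -, hm⟩ := isCompact_univ.exists_isMinOn ⟨x1, trivial⟩ (S.cont (p' * φ')).continuousOn
  obtain ⟨m, hmd⟩ : ∃ m, m = S.ev xm (p' * φ') := ⟨_, rfl⟩
  have h1 : ∀ x, m ≤ S.ev x (p' * φ') := fun x => by rw [hmd]; exact hm (mem_univ x)
  have h2 : ∀ x, S.ev x (p' * φ') ≤ m + o := fun x => by
    have := ho x xm
    rw [hmd]; linarith
  -- bounds of an average
  have key : ∀ {a χ φ p : A}, (∀ x, 0 < S.ev x a) → (∀ x, 0 < S.ev x χ) → χ * p = 1 →
      0 < S.I (a * χ) → ∀ r : ℝ, ((∀ x, r ≤ S.ev x (p * φ)) → r ≤ S.I (a * φ) / S.I (a * χ)) ∧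
        ((∀ x, S.ev x (p * φ) ≤ r) → S.I (a * φ) / S.I (a * χ) ≤ r) := by
    intro a χ φ p ha hχ hp hI r
    have e : ∀ x, S.ev x (a * φ) = S.ev x (p * φ) * (S.ev x (a * χ)) := by
      intro x
      have e1 : a * φ = (p * φ) * (a * χ) := by linear_combination (-(a * φ)) * hp
      conv_lhs => rw [e1]
      rw [map_mul]
    have hpos : ∀ x, 0 ≤ S.ev x (a * χ) := fun x => by
      rw [map_mul]; exact (mul_pos (ha x) (hχ x)).le
    constructor
    · intro h
      rw [le_div_iff₀ hI]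
      have := S.I_mono (f := r • (a * χ)) (g := a * φ) fun x => by
        rw [map_smul, smul_eq_mul, e]
        exact mul_le_mul_of_nonneg_right (h x) (hpos x)
      rwa [map_smul, smul_eq_mul] at this
    · intro h
      rw [div_le_iff₀ hI]
      have := S.I_mono (f := a * φ) (g := r • (a * χ)) fun x => by
        rw [map_smul, smul_eq_mul, e]
        exact mul_le_mul_of_nonneg_right (h x) (hpos x)
      rwa [map_smul, smul_eq_mul] at this
  have k1 := (key ha' hχ' hp' hI' m).1 h1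
  have k2 := (key ha' hχ' hp' hI' (m + o)).2 h2
  have k3 := (key (φ := φ) ha hχ hp hI (m - d)).1 fun x => by
    have := (abs_le.1 (hd x)).1
    have := h1 x
    linarith
  have k4 := (key (φ := φ) ha hχ hp hI (m + o + d)).2 fun x => by
    have := (abs_le.1 (hd x)).2
    have := h2 x
    linarith
  rw [abs_le]
  constructor <;> linarith

/-- The geometric sums. -/
lemma geo_sum {κ τ : ℝ} (hκ : 0 < κ) (hτ : 0 < τ) (k : ℕ) :
    ∑ i ∈ Finset.range k, Real.exp (-(κ * τ)) ^ i * τ ≤ 1 / κ + τ := by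
  obtain ⟨x, hx⟩ : ∃ x, x = Real.exp (-(κ * τ)) := ⟨_, rfl⟩
  have hx0 : 0 < x := by rw [hx]; exact Real.exp_pos _
  have hκτ : 0 < κ * τ := mul_pos hκ hτ
  have hx1 : x < 1 := by
    rw [hx, Real.exp_lt_one_iff]; linarith
  rw [← hx, ← Finset.sum_mul]
  have h1 : ∑ i ∈ Finset.range k, x ^ i ≤ (1 - x)⁻¹ := by
    have h2 := geom_sum_eq hx1.ne k
    rw [h2]
    have h3 : (x ^ k - 1) / (x - 1) = (1 - x ^ k) / (1 - x) := by
      rw [← neg_sub 1 (x ^ k), ← neg_sub 1 x, neg_div_neg_eq]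
    rw [h3, div_eq_mul_inv]
    have h4 : 0 < 1 - x := by linarith
    have h5 : 0 ≤ x ^ k := by positivity
    exact mul_le_of_le_one_left (inv_nonneg.2 h4.le) (by linarith)
  have h2 : (1 - x)⁻¹ ≤ (1 + κ * τ) / (κ * τ) := by
    have h3 : x * (1 + κ * τ) ≤ 1 := by
      have h4 := Real.add_one_le_exp (κ * τ)
      have h5 : x * Real.exp (κ * τ) = 1 := by
        rw [hx, ← Real.exp_add]; simp
      have h6 : x * (1 + κ * τ) ≤ x * Real.exp (κ * τ) :=
        mul_le_mul_of_nonneg_left (by linarith) hx0.le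
      linarith
    rw [inv_eq_one_div, div_le_div_iff₀ (by linarith) hκτ]
    nlinarith
  calc (∑ i ∈ Finset.range k, x ^ i) * τ ≤ ((1 + κ * τ) / (κ * τ)) * τ :=
        mul_le_mul_of_nonneg_right (h1.trans h2) hτ.le
    _ = 1 / κ + τ := by field_simp

/-- The expectation of `F` in the state `ψ`, with the weight `a`. -/
def avg (S : Geo A J X) (a ψ F : A) : ℝ := S.I (a * (F * (ψ * ψ))) / S.I (a * (ψ * ψ))

/-- Comparison of the expectations of two systems. -/
theorem cmp_avg [CompactSpace X] [Nonempty X] (hlog : S.HasLog) (hw : S.Wt w) {τ b b1 Y κ : ℝ}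
    (hb : S.Bar τ b b1 Y) (hκ : κ < S.K - 2 * (Y + b * τ)) (hκ0 : 0 < κ) {a a' : A}
    (ha : S.Good w (b1 * τ) a) (ha' : S.Good w (b1 * τ) a')
    (hai : S.Good (fun j => (w j)⁻¹) (b1 * τ) a') {ζ : ℝ} (hζ : 0 ≤ ζ)
    (h1 : ∀ q q', a * q = 1 → a' * q' = 1 → ∀ x, S.ev x (S.Zw w q a q' a') ≤ ζ ^ 2)
    {z : ℝ} (hz : 0 < z) (hzz : (z + ζ) * Real.exp (-(κ * τ)) ≤ z)
    {Lo : ℝ} (osc : ∀ f c, 0 ≤ c → (∀ x, S.ev x (S.Gw (fun j => (w j)⁻¹) f) ≤ c ^ 2) →
      ∀ x y, S.ev x f - S.ev y f ≤ Lo * c)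
    {F : A} (hF : S.Rep F) {c : ℝ} (hc : 0 < c)
    (hFc : ∀ x, S.ev x (S.Gw (fun j => (w j)⁻¹) F) < c ^ 2) (k : ℕ) :
    |S.avg a ((S.St a τ)^[k] 1) F - S.avg a' ((S.St a' τ)^[k] 1) F| ≤
      2 * (z + ζ) * c * (1 / κ + τ) + Lo * (c * Real.exp (-(κ * τ)) ^ k) := by
  have hone : ∀ v : J → ℝ, S.Good v Y 1 := fun v => ⟨Rep.one, fun x => by rw [map_one]; exact one_pos,
    fun p hp x η hη => by
      have e : S.Rw v η (1 : A) = 0 := by
        unfold Rw Rη
        exact Finset.sum_eq_zero fun k _ => by rw [Derivation.map_one_eq_zero, smul_zero]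
      rw [e, mul_zero]
      have e2 : S.Gw v (0 : A) = 0 := by unfold Gw; simp
      rw [e2, map_zero]; positivity⟩
  have h00 : S.Cmp w Y 1 1 1 1 z c 1 := by
    refine ⟨hone w, hone w, hone _, Rep.one, Rep.one, ?_, ?_, ?_⟩
    · intro p p' hp hp' x
      rw [ev_Zw]
      refine lt_of_eq_of_lt (Finset.sum_eq_zero fun j _ => ?_) (by positivity)
      unfold Z
      rw [Derivation.map_one_eq_zero, mul_zero, mul_zero, sub_zero, map_zero]; ring
    · intro p' hp' x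
      rw [one_mul] at hp'
      rw [hp', mul_one, ev_Gw]
      refine lt_of_eq_of_lt (Finset.sum_eq_zero fun j _ => ?_) (by positivity)
      rw [Derivation.map_one_eq_zero, map_zero]; ring
    · intro p p' hp hp' x
      rw [one_mul] at hp hp'
      rw [hp, hp', sub_self, abs_zero]; exact one_pos
  have hr1 := Cmp.steps hlog hw hb hκ hκ0.le ha ha' hai hζ h1 (z := fun _ => z) (fun _ => hz) hc
    (fun _ => hzz) h00 k
  obtain ⟨ψ, hψ⟩ : ∃ ψ, ψ = (S.St a τ)^[k] 1 := ⟨_, rfl⟩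
  obtain ⟨ψ', hψ'⟩ : ∃ ψ', ψ' = (S.St a' τ)^[k] 1 := ⟨_, rfl⟩
  rw [← hψ, ← hψ'] at hr1 ⊢
  obtain ⟨p, hp⟩ := S.inv _ hr1.g.pos
  obtain ⟨p', hp'⟩ := S.inv _ hr1.g'.pos
  refine le_of_forall_pos_le_add fun δ hδ => ?_
  have h01 : S.Cmp w Y ψ ψ' (F * ψ) (F * ψ') z c δ := by
    refine ⟨hr1.g, hr1.g', hr1.gi, hF.mul hr1.g.rep, hF.mul hr1.g'.rep, hr1.zz, ?_, ?_⟩
    · intro q' hq' x
      have e : q' * (F * ψ') = F := by linear_combination F * hq'
      rw [e]
      exact hFc x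
    · intro q q' hq hq' x
      have e : q * (F * ψ) = F := by linear_combination F * hq
      have e' : q' * (F * ψ') = F := by linear_combination F * hq'
      rw [e, e', sub_self, abs_zero]; exact hδ
  have hr2 := Cmp.steps hlog hw hb hκ hκ0.le ha ha' hai hζ h1 (z := fun _ => z) (fun _ => hz) hc
    (fun _ => hzz) h01 k
  obtain ⟨s, hs⟩ := S.inv _ hr2.g.pos
  obtain ⟨s', hs'⟩ := S.inv _ hr2.g'.pos
  have hdd := hr2.dd s s' hs hs'
  have hcc := hr2.cc s' hs'
  have hav : ∀ {a ψ : A}, S.Rep a → ψ = (S.St a τ)^[k] 1 → S.Rep ψ → S.avg a ψ F =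
      S.I (a * (S.St a τ)^[k] (F * ψ)) / S.I (a * (S.St a τ)^[k] ψ) := by
    intro a ψ ha hψ hψr
    unfold avg
    have e1 := sym_it ha (hF.mul hψr) Rep.one τ k
    have e2 := sym_it ha hψr Rep.one τ k
    rw [← hψ, mul_one] at e1 e2
    rw [e2, ← e1, mul_assoc F ψ ψ]
  rw [hav ha.rep hψ hr1.g.rep, hav ha'.rep hψ' hr1.g'.rep]
  have hgoal := avg_close (S := S) (φ := (S.St a τ)^[k] (F * ψ)) (φ' := (S.St a' τ)^[k] (F * ψ'))
    ha.pos hr2.g.pos hs ha'.pos hr2.g'.pos hs' (fun x => (hdd x).le)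
    (fun x y => osc _ _ (by positivity) (fun x => (hcc x).le) x y)
  refine hgoal.trans ?_
  have hsum : ∑ i ∈ Finset.range k, 2 * (z + ζ) * (c * Real.exp (-(κ * τ)) ^ i) * τ ≤
      2 * (z + ζ) * c * (1 / κ + τ) := by
    have e : ∑ i ∈ Finset.range k, 2 * (z + ζ) * (c * Real.exp (-(κ * τ)) ^ i) * τ =
        2 * (z + ζ) * c * ∑ i ∈ Finset.range k, Real.exp (-(κ * τ)) ^ i * τ := by
      rw [Finset.mul_sum]
      exact Finset.sum_congr rfl fun i _ => by ring
    rw [e]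
    exact mul_le_mul_of_nonneg_left (geo_sum hκ0 hb.hτ k) (by positivity)
  linarith

/-- Covariances: the effect of a factor `g` close to one. -/
theorem cov_avg [CompactSpace X] [Nonempty X] (hlog : S.HasLog) (hw : S.Wt w)
    {τ b b1 Y Y' κ ε : ℝ}
    (hb : S.Bar τ b b1 Y) (hb' : S.Bar τ b b1 Y') (hε : 0 ≤ ε) (hYY : Y + ε ≤ Y')
    (hκ : κ < S.K - 2 * (Y' + b * τ)) (hκ0 : 0 < κ) {a : A}
    (ha : S.Good w (b1 * τ) a) (hai : S.Good (fun j => (w j)⁻¹) (b1 * τ) a)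
    {Lo : ℝ} (osc : ∀ f c, 0 ≤ c → (∀ x, S.ev x (S.Gw (fun j => (w j)⁻¹) f) ≤ c ^ 2) →
      ∀ x y, S.ev x f - S.ev y f ≤ Lo * c)
    {F g : A} (hF : S.Rep F) (hg : S.Good w ε g) {c z : ℝ} (hc : 0 < c) (hz : 0 < z)
    (hFc : ∀ x, S.ev x (S.Gw (fun j => (w j)⁻¹) F) < c ^ 2)
    (hgz : ∀ q, g * q = 1 → ∀ x, ∑ j, w j ^ 2 * S.ev x (q * S.D j g) ^ 2 < z ^ 2) (k : ℕ) :
    |S.avg a ((S.St a τ)^[k] 1) (F * g) / S.avg a ((S.St a τ)^[k] 1) g -
        S.avg a ((S.St a τ)^[k] 1) F| ≤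
      2 * z * c * (1 / (2 * κ) + τ) + Lo * (c * Real.exp (-(κ * τ)) ^ k) := by
  -- the iterates are good
  have hgk : ∀ v : J → ℝ, S.Wt v → S.Good v (b1 * τ) a → ∀ k, S.Good v Y ((S.St a τ)^[k] 1) := by
    intro v hv hav k
    induction k with
    | zero =>
      refine ⟨Rep.one, fun x => by rw [Function.iterate_zero, id, map_one]; exact one_pos, ?_⟩
      intro p hp x η hη
      have e : S.Rw v η ((S.St a τ)^[0] (1 : A)) = 0 := by
        unfold Rw Rη
        exact Finset.sum_eq_zero fun k _ => by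
          rw [Function.iterate_zero, id, Derivation.map_one_eq_zero, smul_zero]
      rw [e, mul_zero]
      have e2 : S.Gw v (0 : A) = 0 := by unfold Gw; simp
      rw [e2, map_zero]; positivity
    | succ k ih =>
      rw [Function.iterate_succ_apply']
      exact (good_step hv hb hav ih).2.1
  obtain ⟨ψ, hψ⟩ : ∃ ψ, ψ = (S.St a τ)^[k] 1 := ⟨_, rfl⟩
  have hG := hgk w hw ha k
  have hGi := hgk _ hw.inv hai k
  rw [← hψ] at hG hGi ⊢
  have hYY' : Y ≤ Y' := by linarith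
  refine le_of_forall_pos_le_add fun δ hδ => ?_
  have hgψ : S.Good w Y' (g * ψ) := (hg.mul hG hε hb.hY.le).mono (by linarith [hb.hY])
    (by linarith)
  have h01 : S.Cmp w Y' (g * ψ) ψ (F * (g * ψ)) (F * ψ) z c δ := by
    refine ⟨hgψ, hG.mono hb.hY.le hYY', hGi.mono hb.hY.le hYY', hF.mul hgψ.rep, hF.mul hG.rep,
      ?_, ?_, ?_⟩
    · intro r p' hr hp' x
      obtain ⟨q, hq⟩ := S.inv _ hg.pos
      have e0 : r = q * p' := inv_unique hr (by linear_combination (ψ * p') * hq + hp')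
      rw [ev_Zw]
      refine lt_of_eq_of_lt (Finset.sum_congr rfl fun j _ => ?_) (hgz q hq x)
      congr 3
      unfold Z
      rw [e0, Derivation.leibniz, smul_eq_mul, smul_eq_mul]
      linear_combination (p' * S.D j ψ) * hq + (q * S.D j g) * hp'
    · intro q' hq' x
      have e : q' * (F * ψ) = F := by linear_combination F * hq'
      rw [e]
      exact hFc x
    · intro q q' hq hq' x
      have e : q * (F * (g * ψ)) = F := by linear_combination F * hq
      have e' : q' * (F * ψ) = F := by linear_combination F * hq'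
      rw [e, e', sub_self, abs_zero]; exact hδ
  have hr2 := Cmp.steps hlog hw hb' hκ hκ0.le ha ha hai (ζ := 0) le_rfl (by
      intro q q' hq hq' x
      have e : q = q' := inv_unique hq hq'
      rw [ev_Zw]
      refine le_of_eq ?_
      rw [zero_pow two_ne_zero]
      refine Finset.sum_eq_zero fun j _ => ?_
      unfold Z
      rw [e, sub_self, map_zero]; ring)
    (z := fun i => z * Real.exp (-(κ * τ)) ^ i) (fun i => by positivity) hc
    (fun i => by rw [add_zero, pow_succ]; exact le_of_eq (by ring)) (by simpa using h01) k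
  obtain ⟨s, hs⟩ := S.inv _ hr2.g.pos
  obtain ⟨s', hs'⟩ := S.inv _ hr2.g'.pos
  have hdd := hr2.dd s s' hs hs'
  have hcc := hr2.cc s' hs'
  have e1 := sym_it ha.rep (hF.mul hgψ.rep) Rep.one τ k
  have e2 := sym_it ha.rep hgψ.rep Rep.one τ k
  have e3 := sym_it ha.rep (hF.mul hG.rep) Rep.one τ k
  have e4 := sym_it ha.rep hG.rep Rep.one τ k
  rw [← hψ, mul_one] at e1 e2 e3 e4
  have hI : 0 < S.I (a * (ψ * ψ)) := I_pos fun x => by
    rw [map_mul, map_mul]; exact mul_pos (ha.pos x) (mul_pos (hG.pos x) (hG.pos x))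
  have hav1 : S.avg a ψ (F * g) / S.avg a ψ g =
      S.I (a * (S.St a τ)^[k] (F * (g * ψ))) / S.I (a * (S.St a τ)^[k] (g * ψ)) := by
    unfold avg
    rw [div_div_div_cancel_right₀ hI.ne', ← e1, ← e2]
    congr 3 <;> ring
  have hav2 : S.avg a ψ F = S.I (a * (S.St a τ)^[k] (F * ψ)) / S.I (a * (S.St a τ)^[k] ψ) := by
    unfold avg
    rw [← e3, ← e4, mul_assoc F ψ ψ]
  rw [hav1, hav2]
  have hgoal := avg_close (S := S) (φ := (S.St a τ)^[k] (F * (g * ψ)))
    (φ' := (S.St a τ)^[k] (F * ψ))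
    ha.pos hr2.g.pos hs ha.pos hr2.g'.pos hs' (fun x => (hdd x).le)
    (fun x y => osc _ _ (by positivity) (fun x => (hcc x).le) x y)
  refine hgoal.trans ?_
  have hsum : ∑ i ∈ Finset.range k, 2 * (z * Real.exp (-(κ * τ)) ^ i + 0) *
      (c * Real.exp (-(κ * τ)) ^ i) * τ ≤ 2 * z * c * (1 / (2 * κ) + τ) := by
    have e : ∑ i ∈ Finset.range k, 2 * (z * Real.exp (-(κ * τ)) ^ i + 0) *
        (c * Real.exp (-(κ * τ)) ^ i) * τ =
        2 * z * c * ∑ i ∈ Finset.range k, Real.exp (-(2 * κ * τ)) ^ i * τ := by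
      rw [Finset.mul_sum]
      refine Finset.sum_congr rfl fun i _ => ?_
      have e5 : Real.exp (-(2 * κ * τ)) = Real.exp (-(κ * τ)) ^ 2 := by
        rw [← Real.exp_nat_mul]
        congr 1
        push_cast; ring
      rw [e5]; ring
    rw [e]
    exact mul_le_mul_of_nonneg_left (geo_sum (by linarith) hb.hτ k) (by positivity)
  linarith

end Geo

end

end Pool.Agent.W504.YM
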