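import Mathlib
import Pool.Agent.W504.YW.W4

/-!
# The energy of the iterates
-/

open Pool.Agent.H906R3.YM Filter Topology Set

namespace Pool.Agent.W504.YM

noncomputable section

variable {A : Type*} [CommRing A] [Algebra ℝ A] {J X : Type*} [Fintype J] [DecidableEq J]
    [TopologicalSpace X]

namespace Geo

variable {S : Geo A J X} {w : J → ℝ}

lemma good_one (w : J → ℝ) (Y : ℝ) : S.Good w Y 1 := by
  refine ⟨Rep.one, fun x => by rw [map_one]; exact one_pos, fun p hp x η hη => ?_⟩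
  have e : S.Rw w η (1 : A) = 0 := by
    unfold Rw Rη
    exact Finset.sum_eq_zero fun k _ => by rw [Derivation.map_one_eq_zero, smul_zero]
  rw [e, mul_zero]
  have e2 : S.Gw w (0 : A) = 0 := by unfold Gw; simp
  rw [e2, map_zero]; positivity

lemma good_steps [CompactSpace X] (hw : S.Wt w) {τ b b1 Y : ℝ} (hb : S.Bar τ b b1 Y) {a ψ : A}
    (ha : S.Good w (b1 * τ) a) (hψ : S.Good w Y ψ) (k : ℕ) :
    S.Good w Y ((S.St a τ)^[k] ψ) := by
  induction k with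
  | zero => exact hψ
  | succ k ih =>
    rw [Function.iterate_succ_apply']
    exact (good_step hw hb ha ih).2.1

lemma grad_steps [CompactSpace X] (hw : S.Wt w) {τ b b1 Y κ : ℝ} (hb : S.Bar τ b b1 Y) {a ψ : A}
    (ha : S.Good w (b1 * τ) a) (hψ : S.Good w Y ψ) (hκ : κ < S.K - 2 * (Y + b * τ)) {u : A}
    (hu : S.Rep u) {c : ℝ} (hc : 0 < c)
    (h0 : ∀ p, ψ * p = 1 → ∀ x, S.ev x (S.Gw w (p * u)) < c ^ 2) (k : ℕ) :
    ∀ p, (S.St a τ)^[k] ψ * p = 1 → ∀ x,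
      S.ev x (S.Gw w (p * (S.St a τ)^[k] u)) < (c * Real.exp (-(κ * τ)) ^ k) ^ 2 := by
  induction k with
  | zero => simpa using h0
  | succ k ih =>
    intro p hp x
    rw [Function.iterate_succ_apply'] at hp ⊢
    have hgk := good_steps hw hb ha hψ k
    obtain ⟨q, hq⟩ := S.inv _ hgk.pos
    have h1 := grad_step hw hb ha hgk hκ (It_rep ha.rep hu τ k) hq (c := c * Real.exp (-(κ * τ)) ^ k)
      (by positivity) (ih q hq) τ hb.hτ.le le_rfl p hp x
    have e : c * Real.exp (-(κ * τ)) ^ (k + 1) =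
        c * Real.exp (-(κ * τ)) ^ k * Real.exp (-(κ * τ)) := by
      rw [pow_succ (Real.exp (-(κ * τ))) k]; ring
    rw [e]
    exact h1

lemma pos_it [CompactSpace X] {a f : A} (ha : S.Rep a) (hpos : ∀ x, 0 < S.ev x a) (hf : S.Rep f)
    (h : ∀ x, 0 < S.ev x f) {τ : ℝ} (hτ : 0 ≤ τ) (k : ℕ) :
    ∀ x, 0 < S.ev x ((S.St a τ)^[k] f) := by
  induction k with
  | zero => exact h
  | succ k ih =>
    intro x
    rw [Function.iterate_succ_apply']
    exact P_pos (ha.mul (It_rep ha hf τ k)) (fun y => by rw [map_mul]; exact mul_pos (hpos y) (ih y))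
      hτ x

/-- monotonicity of the iterates -/
lemma mono_it [CompactSpace X] {a f g : A} (ha : S.Rep a) (hpos : ∀ x, 0 < S.ev x a)
    (hf : S.Rep f) (hg : S.Rep g) {c : ℝ}
    (h : ∀ x, S.ev x f < c * S.ev x g) {τ : ℝ} (hτ : 0 ≤ τ) (k : ℕ) :
    ∀ x, S.ev x ((S.St a τ)^[k] f) < c * S.ev x ((S.St a τ)^[k] g) := by
  intro x
  have h1 := pos_it ha hpos ((hg.smul c).add (hf.smul (-1))) (by
    intro y
    rw [map_add, map_smul, map_smul, smul_eq_mul, smul_eq_mul]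
    have := h y
    linarith) hτ k x
  rw [It_lin ha hg hf hτ, map_add, map_smul, map_smul, smul_eq_mul, smul_eq_mul] at h1
  linarith

/-- The ratio of successive iterates is at least `θ` somewhere. -/
lemma ratio_sup [CompactSpace X] [Nonempty X] {a : A} (ha : S.Rep a) (hpos : ∀ x, 0 < S.ev x a)
    {τ : ℝ} (hτ : 0 ≤ τ) {F : A} (hF : S.Rep F) {θ m : ℝ} (hm : 0 < m)
    (hmF : m ≤ S.I (a * (F * F)))
    (hθ : θ * S.I (a * (F * F)) ≤ S.I (a * (F * S.St a τ F))) {ρ : ℝ} (hρ0 : 0 < ρ) (hρ : ρ < θ)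
    (k : ℕ) : ∃ x, ρ * S.ev x ((S.St a τ)^[k] 1) ≤ S.ev x ((S.St a τ)^[k + 1] 1) := by
  by_contra hcon
  push Not at hcon
  obtain ⟨Φ, hΦ⟩ : ∃ Φ : ℕ → A, Φ = fun k => (S.St a τ)^[k] 1 := ⟨_, rfl⟩
  have hΦk : ∀ k, (S.St a τ)^[k] 1 = Φ k := fun k => by rw [hΦ]
  have hrep : ∀ k, S.Rep (Φ k) := fun k => by rw [← hΦk]; exact It_rep ha Rep.one τ k
  have hp : ∀ k x, 0 < S.ev x (Φ k) := fun k => by
    rw [← hΦk]
    exact pos_it ha hpos Rep.one (fun x => by rw [map_one]; exact one_pos) hτ k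
  rw [hΦk, hΦk] at hcon
  have hsplit : ∀ i j, (S.St a τ)^[j] (Φ i) = Φ (i + j) := by
    intro i j
    rw [← hΦk, ← hΦk, ← Function.iterate_add_apply, add_comm]
  have h1 : ∀ j x, S.ev x (Φ (k + 1 + j)) < ρ * S.ev x (Φ (k + j)) := by
    intro j x
    have h2 := mono_it ha hpos (hrep (k + 1)) (hrep k) (c := ρ) hcon hτ j x
    rwa [hsplit, hsplit] at h2
  have h2 : ∀ j x, S.ev x (Φ (k + j)) ≤ ρ ^ j * S.ev x (Φ k) := by
    intro j
    induction j with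
    | zero => intro x; simp
    | succ j ih =>
      intro x
      have h3 := h1 j x
      have h4 : k + 1 + j = k + (j + 1) := by ring
      rw [h4] at h3
      calc S.ev x (Φ (k + (j + 1))) ≤ ρ * S.ev x (Φ (k + j)) := h3.le
        _ ≤ ρ * (ρ ^ j * S.ev x (Φ k)) := mul_le_mul_of_nonneg_left (ih x) hρ0.le
        _ = ρ ^ (j + 1) * S.ev x (Φ k) := by rw [pow_succ]; ring
  obtain ⟨c, hc0, hc⟩ := exists_bound (S := S) F
  have habs : ∀ j x, |S.ev x ((S.St a τ)^[j] F)| ≤ (c + 1) * S.ev x (Φ j) := by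
    intro j x
    have e1 := mono_it ha hpos hF Rep.one (c := c + 1) (fun y => by
      rw [map_one, mul_one]
      have := (le_abs_self _).trans (hc y)
      linarith) hτ j x
    have e2 := mono_it ha hpos (hF.smul (-1)) Rep.one (c := c + 1) (fun y => by
      rw [map_one, mul_one, map_smul, smul_eq_mul]
      have := (neg_abs_le _).trans' (neg_le_neg (hc y))
      linarith) hτ j x
    have e3 := It_lin ha hF hF hτ (-1) 0 j
    rw [zero_smul, add_zero, zero_smul, add_zero] at e3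
    rw [e3, map_smul, smul_eq_mul, hΦk] at e2
    rw [hΦk] at e1
    rw [abs_le]
    constructor <;> linarith
  have hθ0 : 0 < θ := hρ0.trans hρ
  have hlog := logconv ha (fun x => (hpos x).le) hF hθ0.le hθ
  obtain ⟨Z, hZ⟩ : ∃ Z, Z = S.I (a * (Φ k * Φ k)) := ⟨_, rfl⟩
  have hmain : ∀ j : ℕ, (θ ^ 2) ^ k * ((θ / ρ) ^ 2) ^ j * m ≤ (c + 1) ^ 2 * Z := by
    intro j
    have h3 := hlog (k + j)
    have h4 : S.I (a * ((S.St a τ)^[k + j] F * (S.St a τ)^[k + j] F)) ≤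
        (c + 1) ^ 2 * (ρ ^ 2) ^ j * Z := by
      rw [hZ]
      have h5 := S.I_mono (f := a * ((S.St a τ)^[k + j] F * (S.St a τ)^[k + j] F))
        (g := ((c + 1) ^ 2 * (ρ ^ 2) ^ j) • (a * (Φ k * Φ k))) fun x => by
          rw [map_smul, smul_eq_mul, map_mul (S.ev x) a, map_mul (S.ev x) a, map_mul, map_mul]
          have h6 := habs (k + j) x
          have h7 := h2 j x
          have h8 : |S.ev x ((S.St a τ)^[k + j] F)| ≤ (c + 1) * (ρ ^ j * S.ev x (Φ k)) :=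
            h6.trans (mul_le_mul_of_nonneg_left h7 (by linarith))
          have h9 : S.ev x ((S.St a τ)^[k + j] F) * S.ev x ((S.St a τ)^[k + j] F) ≤
              ((c + 1) * (ρ ^ j * S.ev x (Φ k))) ^ 2 := by
            rw [← sq, ← sq_abs]
            exact pow_le_pow_left₀ (abs_nonneg _) h8 2
          calc S.ev x a * (S.ev x ((S.St a τ)^[k + j] F) * S.ev x ((S.St a τ)^[k + j] F))
              ≤ S.ev x a * ((c + 1) * (ρ ^ j * S.ev x (Φ k))) ^ 2 :=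
                mul_le_mul_of_nonneg_left h9 (hpos x).le
            _ = _ := by rw [mul_pow, mul_pow, ← pow_mul, ← pow_mul]; ring
      rwa [map_smul, smul_eq_mul] at h5
    have h5 : (θ ^ 2) ^ (k + j) * m ≤ (c + 1) ^ 2 * (ρ ^ 2) ^ j * Z :=
      (mul_le_mul_of_nonneg_left hmF (by positivity)).trans (h3.trans h4)
    have h6 : 0 < (ρ ^ 2) ^ j := by positivity
    have h7 : (ρ ^ 2) ^ j * ((θ ^ 2) ^ k * ((θ / ρ) ^ 2) ^ j * m) ≤
        (ρ ^ 2) ^ j * ((c + 1) ^ 2 * Z) := by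
      have e : (ρ ^ 2) ^ j * ((θ / ρ) ^ 2) ^ j = (θ ^ 2) ^ j := by
        rw [← mul_pow]
        congr 1
        field_simp
      calc (ρ ^ 2) ^ j * ((θ ^ 2) ^ k * ((θ / ρ) ^ 2) ^ j * m)
          = (θ ^ 2) ^ k * ((ρ ^ 2) ^ j * ((θ / ρ) ^ 2) ^ j) * m := by ring
        _ = (θ ^ 2) ^ (k + j) * m := by rw [e, pow_add]
        _ ≤ _ := h5
        _ = _ := by ring
    exact le_of_mul_le_mul_left h7 h6
  have h3 : 1 < (θ / ρ) ^ 2 := by
    have : 1 < θ / ρ := (one_lt_div hρ0).2 hρ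
    nlinarith
  have h4 : 0 < (θ ^ 2) ^ k * m := by positivity
  obtain ⟨n, hn⟩ := pow_unbounded_of_one_lt ((c + 1) ^ 2 * Z / ((θ ^ 2) ^ k * m)) h3
  rw [div_lt_iff₀ h4] at hn
  have h5 := hmain n
  nlinarith

/-- The energy of the iterates, for a fixed time step. -/
theorem energy_tau [CompactSpace X] [Nonempty X] (hw : S.Wt w) {V : A}
    (hV0 : ∀ x, 0 ≤ S.ev x V) {τ b b1 Y κ : ℝ}
    (hb : S.Bar τ b b1 Y) (hκ : κ < S.K - 2 * (Y + b * τ)) (hκ0 : 0 < κ)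
    (ha : S.Good w (b1 * τ) (1 - τ • V))
    {Lo : ℝ} (osc : ∀ f c, 0 ≤ c → (∀ x, S.ev x (S.Gw w f) ≤ c ^ 2) →
      ∀ x y, S.ev x f - S.ev y f ≤ Lo * c)
    {F : A} (hF : S.Rep F) {θ m : ℝ} (hm : 0 < m) (hθ1 : θ ≤ 1)
    (hmF : m ≤ S.I ((1 - τ • V) * (F * F)))
    (hθ : θ * S.I ((1 - τ • V) * (F * F)) ≤
      S.I ((1 - τ • V) * (F * S.St (1 - τ • V) τ F))) {ρ : ℝ} (hρ0 : 0 < ρ) (hρ : ρ < θ) :
    ∀ᶠ k in atTop, S.I (S.G2 ((S.St (1 - τ • V) τ)^[k] 1)) +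
      S.I (V * ((S.St (1 - τ • V) τ)^[k] 1 * (S.St (1 - τ • V) τ)^[k] 1)) ≤
      (1 / τ) * (1 / ρ - 1) *
        S.I ((S.St (1 - τ • V) τ)^[k] 1 * (S.St (1 - τ • V) τ)^[k] 1) := by
  have hτ := hb.hτ
  obtain ⟨a, ha'⟩ : ∃ a : A, a = 1 - τ • V := ⟨_, rfl⟩
  rw [← ha'] at ha hmF hθ ⊢
  obtain ⟨Φ, hΦ⟩ : ∃ Φ : ℕ → A, Φ = fun k => (S.St a τ)^[k] 1 := ⟨_, rfl⟩
  have hΦk : ∀ k, (S.St a τ)^[k] 1 = Φ k := fun k => by rw [hΦ]
  have hΦs : ∀ k, Φ (k + 1) = S.St a τ (Φ k) := fun k => by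
    rw [← hΦk, ← hΦk, Function.iterate_succ_apply']
  have hgood : ∀ k, S.Good w Y (Φ k) := fun k => by
    rw [← hΦk]; exact good_steps hw hb ha (good_one w Y) k
  simp only [hΦk]
  -- oscillation of the ratios
  obtain ⟨C, hC0, hC⟩ := exists_bound (S := S) (S.Gw w (S.St a τ 1))
  obtain ⟨c, hc⟩ : ∃ c, c = Real.sqrt C + 1 := ⟨_, rfl⟩
  have hc0 : 0 < c := by rw [hc]; have := Real.sqrt_nonneg C; linarith
  have hgr := grad_steps hw hb ha (good_one w Y) hκ (St_rep ha.rep Rep.one τ) (c := c) hc0 (by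
    intro p hp x
    rw [one_mul] at hp
    rw [hp, one_mul]
    have h1 := (le_abs_self _).trans (hC x)
    have h2 := Real.sq_sqrt hC0
    have h3 := Real.sqrt_nonneg C
    rw [hc]
    nlinarith)
  have hratio : ∀ k p, Φ k * p = 1 → ∀ x y, S.ev x (p * Φ (k + 1)) - S.ev y (p * Φ (k + 1)) ≤
      Lo * (c * Real.exp (-(κ * τ)) ^ k) := by
    intro k p hp
    have h1 := hgr k p (by rw [hΦk]; exact hp)
    have e : (S.St a τ)^[k] (S.St a τ 1) = Φ (k + 1) := by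
      rw [← hΦk, Function.iterate_succ_apply]
    rw [e] at h1
    exact osc _ _ (by positivity) fun x => (h1 x).le
  obtain ⟨ρ', hρ'⟩ : ∃ ρ', ρ' = (ρ + θ) / 2 := ⟨_, rfl⟩
  have hlim : Tendsto (fun k : ℕ => Lo * (c * Real.exp (-(κ * τ)) ^ k)) atTop (𝓝 0) := by
    have h1 : Real.exp (-(κ * τ)) < 1 := by
      rw [Real.exp_lt_one_iff]
      have := mul_pos hκ0 hτ
      linarith
    have h2 := ((tendsto_pow_atTop_nhds_zero_of_lt_one (Real.exp_pos _).le h1).const_mul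
      c).const_mul Lo
    simpa using h2
  have hev : ∀ᶠ k : ℕ in atTop, Lo * (c * Real.exp (-(κ * τ)) ^ k) < ρ' - ρ :=
    hlim.eventually (gt_mem_nhds (by rw [hρ']; linarith))
  have hmain : ∀ᶠ k : ℕ in atTop, S.I (S.G2 (Φ (k + 1))) +
      S.I (V * (Φ (k + 1) * Φ (k + 1))) ≤ (1 / τ) * (1 / ρ - 1) * S.I (Φ (k + 1) * Φ (k + 1)) := by
    filter_upwards [hev] with k hk
    obtain ⟨p, hp⟩ := S.inv _ (hgood k).pos
    obtain ⟨x0, hx0⟩ := ratio_sup ha.rep ha.pos hτ.le hF hm hmF hθ (ρ := ρ') (by rw [hρ']; linarith)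
      (by rw [hρ']; linarith) k
    rw [hΦk, hΦk] at hx0
    -- lower bound of the ratio everywhere
    have hpe : ∀ x, S.ev x p = (S.ev x (Φ k))⁻¹ := fun x => by
      have := congrArg (S.ev x) hp
      rw [map_mul, map_one] at this
      exact eq_inv_of_mul_eq_one_right this
    have h1 : ρ' ≤ S.ev x0 (p * Φ (k + 1)) := by
      rw [map_mul, hpe, inv_mul_eq_div, le_div_iff₀ ((hgood k).pos x0)]
      exact hx0
    have h2 : ∀ y, ρ * S.ev y (Φ k) ≤ S.ev y (Φ (k + 1)) := by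
      intro y
      have h3 := hratio k p hp x0 y
      have h4 : ρ ≤ S.ev y (p * Φ (k + 1)) := by linarith
      rw [map_mul, hpe, inv_mul_eq_div, le_div_iff₀ ((hgood k).pos y)] at h4
      exact h4
    -- energy
    have hr := ha.rep.mul (hgood k).rep
    obtain ⟨Kf, hKf⟩ : ∃ Kf, Kf = S.P (τ / 2) (a * Φ k) := ⟨_, rfl⟩
    have hKr : S.Rep Kf := by rw [hKf]; exact P_rep hr _
    have hRK : S.P (τ / 2) Kf = Φ (k + 1) := by
      rw [hKf, ← P_comp hr (τ / 2) (half_pos hτ).le, add_halves, hΦs]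
      rfl
    have h3 := (P_heat hKr).le1 (half_pos hτ).le
    rw [P_zero hKr, hRK] at h3
    have h4 : S.I (Kf * Kf) = S.I (a * (Φ k * Φ (k + 1))) := by
      have h8 := P_symm hr hKr (τ / 2)
      rw [← hKf, hRK] at h8
      rw [h8, mul_assoc]
    have h5 : ρ * S.I (a * (Φ k * Φ (k + 1))) ≤ S.I (a * (Φ (k + 1) * Φ (k + 1))) := by
      have := S.I_mono (f := ρ • (a * (Φ k * Φ (k + 1)))) (g := a * (Φ (k + 1) * Φ (k + 1)))
        fun x => by
          rw [map_smul, smul_eq_mul, map_mul (S.ev x) a, map_mul (S.ev x) a, map_mul, map_mul]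
          have e1 := mul_le_mul_of_nonneg_right (h2 x) ((hgood (k + 1)).pos x).le
          have e2 := mul_le_mul_of_nonneg_left e1 (ha.pos x).le
          linarith
      rwa [map_smul, smul_eq_mul] at this
    have h6 : S.I (a * (Φ (k + 1) * Φ (k + 1))) = S.I (Φ (k + 1) * Φ (k + 1)) -
        τ * S.I (V * (Φ (k + 1) * Φ (k + 1))) := by
      rw [ha', sub_mul, one_mul, smul_mul_assoc, map_sub, map_smul, smul_eq_mul]
    have h7 : 0 ≤ S.I (V * (Φ (k + 1) * Φ (k + 1))) := I_nonneg fun x => by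
      rw [map_mul, map_mul]
      exact mul_nonneg (hV0 x) (mul_self_nonneg _)
    have h8 : 0 ≤ S.I (S.G2 (Φ (k + 1))) := I_G2_nonneg _
    obtain ⟨G, hG⟩ : ∃ G, G = S.I (S.G2 (Φ (k + 1))) := ⟨_, rfl⟩
    obtain ⟨W, hW⟩ : ∃ W, W = S.I (V * (Φ (k + 1) * Φ (k + 1))) := ⟨_, rfl⟩
    obtain ⟨Q, hQ⟩ : ∃ Q, Q = S.I (Φ (k + 1) * Φ (k + 1)) := ⟨_, rfl⟩
    obtain ⟨T, hT⟩ : ∃ T, T = S.I (a * (Φ k * Φ (k + 1))) := ⟨_, rfl⟩
    rw [h4, ← hG, ← hQ, ← hT] at h3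
    rw [← hT, h6, ← hQ, ← hW] at h5
    rw [← hW] at h7
    rw [← hG] at h8
    rw [← hG, ← hW, ← hQ]
    have hρ1 : ρ ≤ 1 := by linarith
    have h9 : τ * ρ * (G + W) ≤ (1 - ρ) * Q := by
      have e1 : ρ * (Q + 2 * (τ / 2) * G) ≤ ρ * T := mul_le_mul_of_nonneg_left (by linarith) hρ0.le
      have e2 : τ * ρ * W ≤ τ * 1 * W :=
        mul_le_mul_of_nonneg_right (mul_le_mul_of_nonneg_left hρ1 hτ.le) h7
      nlinarith
    have h10 : (1 / τ) * (1 / ρ - 1) * Q = ((1 - ρ) * Q) / (τ * ρ) := by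
      field_simp
    rw [h10, le_div_iff₀ (mul_pos hτ hρ0)]
    linarith
  obtain ⟨n, hn⟩ := eventually_atTop.1 hmain
  refine eventually_atTop.2 ⟨n + 1, fun k hk => ?_⟩
  obtain ⟨j, rfl⟩ : ∃ j, k = j + 1 := ⟨k - 1, by omega⟩
  exact hn j (by omega)

end Geo

end

end Pool.Agent.W504.YM
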