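import Mathlib
import Pool.Agent.W504.YW.W5

/-!
# Small time steps: the multipliers
-/

open Pool.Agent.H906R3.YM Filter Topology Set

namespace Pool.Agent.W504.YM

noncomputable section

variable {A : Type*} [CommRing A] [Algebra ℝ A] {J X : Type*} [Fintype J] [DecidableEq J]
    [TopologicalSpace X]

namespace Geo

variable {S : Geo A J X} {w : J → ℝ}

/-- the effect of the multiplication on the weighted logarithmic derivatives -/
lemma mult_bound_w {V q : A} {τ B b1 Vm rV aV : ℝ} (hτ : 0 < τ) (hV0 : ∀ x, 0 ≤ S.ev x V)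
    (hVm : ∀ x, S.ev x V ≤ Vm) (hτV : τ * Vm ≤ 1 / 2) (hwq : (1 - τ • V) * q = 1) (hB0 : 0 ≤ B)
    (hb1 : 0 ≤ b1) (hrV : 0 ≤ rV) (haV : 0 ≤ aV) (hbτ : B + τ * (2 * Vm * B + 4 * (rV * aV)) ≤ b1)
    {x : X} {η : J → ℝ} (hB : S.ev x (S.Gw w (S.Rw w η V)) ≤ B ^ 2)
    (hr : |S.ev x (S.Rw w η V)| ≤ rV) (ha : S.ev x (S.Gw w V) ≤ aV ^ 2) :
    S.ev x (S.Gw w (q * S.Rw w η (1 - τ • V))) ≤ (b1 * τ) ^ 2 := by
  have hR : S.Rw w η (1 - τ • V) = (-τ) • S.Rw w η V := by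
    unfold Rw Rη
    rw [Finset.smul_sum]
    refine Finset.sum_congr rfl fun k _ => ?_
    rw [map_sub, Derivation.map_one_eq_zero, zero_sub, Derivation.map_smul, smul_neg, smul_comm,
      neg_smul]
  rw [hR, mul_smul_comm, Gw_smul, map_smul, smul_eq_mul]
  have hVx := hVm x
  have hVx0 := hV0 x
  have hτVx : τ * S.ev x V ≤ 1 / 2 := (mul_le_mul_of_nonneg_left hVx hτ.le).trans hτV
  have hτVx0 := mul_nonneg hτ.le hVx0
  obtain ⟨Q, hQ⟩ : ∃ Q, Q = S.ev x q := ⟨_, rfl⟩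
  have hQ1 : (1 - τ * S.ev x V) * Q = 1 := by
    have := congrArg (S.ev x) hwq
    rw [map_mul, map_sub, map_one, map_smul, smul_eq_mul, ← hQ] at this
    exact this
  have hQ0 : 0 ≤ Q := by
    by_contra hc
    rw [not_le] at hc
    nlinarith
  have hQ2 : Q ≤ 2 := by nlinarith
  have hQ3 : Q ≤ 1 + 2 * (τ * Vm) := by
    have h1 : Q = 1 + τ * S.ev x V * Q := by linarith
    have h2 : τ * S.ev x V * Q ≤ τ * Vm * 2 := by
      refine mul_le_mul (mul_le_mul_of_nonneg_left hVx hτ.le) hQ2 hQ0 ?_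
      exact mul_nonneg hτ.le (hVx0.trans hVx)
    linarith
  have hD : ∀ j, S.ev x (S.D j (q * S.Rw w η V)) =
      Q * S.ev x (S.D j (S.Rw w η V)) + (τ * Q ^ 2 * S.ev x (S.Rw w η V)) * S.ev x (S.D j V) := by
    intro j
    have h1 : S.D j (1 - τ • V) = (-τ) • S.D j V := by
      rw [map_sub, Derivation.map_one_eq_zero, zero_sub, Derivation.map_smul, neg_smul]
    rw [Derivation.leibniz, D_inv hwq, h1, smul_eq_mul, smul_eq_mul, map_add, map_mul, map_mul,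
      map_neg, map_mul, map_mul, map_smul, smul_eq_mul, ← hQ]
    ring
  have h1 : S.ev x (S.Gw w (q * S.Rw w η V)) ≤ (Q * B + τ * Q ^ 2 * rV * aV) ^ 2 := by
    rw [ev_Gw]
    have e0 : ∑ j, w j ^ 2 * S.ev x (S.D j (q * S.Rw w η V)) ^ 2 =
        ∑ j, (Q * (w j * S.ev x (S.D j (S.Rw w η V))) +
          (τ * Q ^ 2 * S.ev x (S.Rw w η V)) * (w j * S.ev x (S.D j V))) ^ 2 :=
      Finset.sum_congr rfl fun j _ => by rw [hD]; ring
    rw [e0]
    refine vec_add_le (mul_nonneg hQ0 hB0) (by positivity) ?_ ?_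
    · have : ∑ j, (Q * (w j * S.ev x (S.D j (S.Rw w η V)))) ^ 2 =
          Q ^ 2 * S.ev x (S.Gw w (S.Rw w η V)) := by
        rw [ev_Gw, Finset.mul_sum]
        exact Finset.sum_congr rfl fun j _ => by ring
      rw [this, mul_pow]
      exact mul_le_mul_of_nonneg_left hB (sq_nonneg _)
    · have : ∑ j, (τ * Q ^ 2 * S.ev x (S.Rw w η V) * (w j * S.ev x (S.D j V))) ^ 2 =
          (τ * Q ^ 2 * S.ev x (S.Rw w η V)) ^ 2 * S.ev x (S.Gw w V) := by
        rw [ev_Gw, Finset.mul_sum]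
        exact Finset.sum_congr rfl fun j _ => by ring
      rw [this, mul_pow _ aV]
      refine mul_le_mul ?_ ha (ev_Gw_nonneg x V) (sq_nonneg _)
      rw [mul_pow, mul_pow _ rV]
      refine mul_le_mul_of_nonneg_left ?_ (sq_nonneg _)
      exact sq_le_sq' (by linarith [neg_abs_le (S.ev x (S.Rw w η V))])
        ((le_abs_self _).trans hr)
  have h2 : Q * B + τ * Q ^ 2 * rV * aV ≤ b1 := by
    refine le_trans ?_ hbτ
    have h3 : Q * B ≤ (1 + 2 * (τ * Vm)) * B := mul_le_mul_of_nonneg_right hQ3 hB0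
    have h4 : Q ^ 2 ≤ 4 := by nlinarith
    have h5 : τ * Q ^ 2 * rV * aV ≤ τ * 4 * rV * aV :=
      mul_le_mul_of_nonneg_right (mul_le_mul_of_nonneg_right
        (mul_le_mul_of_nonneg_left h4 hτ.le) hrV) haV
    nlinarith
  have h3 : 0 ≤ Q * B + τ * Q ^ 2 * rV * aV := by positivity
  calc (-τ) ^ 2 * S.ev x (S.Gw w (q * S.Rw w η V)) ≤ (-τ) ^ 2 * (Q * B + τ * Q ^ 2 * rV * aV) ^ 2 :=
        mul_le_mul_of_nonneg_left h1 (sq_nonneg _)
    _ ≤ (-τ) ^ 2 * b1 ^ 2 := mul_le_mul_of_nonneg_left (pow_le_pow_left₀ h3 h2 2) (sq_nonneg _)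
    _ = _ := by ring

/-- bounds for right derivatives -/
lemma exists_Rw_bound [CompactSpace X] (w : J → ℝ) (V : A) : ∃ rV, 0 ≤ rV ∧
    ∀ x (η : J → ℝ), ∑ k, η k ^ 2 = 1 → |S.ev x (S.Rw w η V)| ≤ rV := by
  obtain ⟨rk, hrk⟩ : ∃ rk : J → ℝ, ∀ k, 0 ≤ rk k ∧ ∀ x, |S.ev x (S.R k V)| ≤ rk k :=
    ⟨fun k => (exists_bound (S := S) (S.R k V)).choose,
      fun k => (exists_bound (S := S) (S.R k V)).choose_spec⟩
  refine ⟨∑ k, |(w k)⁻¹| * rk k, Finset.sum_nonneg fun k _ => mul_nonneg (abs_nonneg _) (hrk k).1,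
    fun x η hη => ?_⟩
  unfold Rw Rη
  rw [map_sum]
  refine (Finset.abs_sum_le_sum_abs _ _).trans (Finset.sum_le_sum fun k _ => ?_)
  rw [map_smul, smul_eq_mul, abs_mul]
  have h1 : |η k| ≤ 1 := by
    have h2 : η k ^ 2 ≤ 1 := by
      rw [← hη]
      exact Finset.single_le_sum (f := fun k => η k ^ 2) (fun i _ => sq_nonneg _)
        (Finset.mem_univ k)
    exact (sq_le_one_iff_abs_le_one _).1 h2
  rw [abs_mul, mul_assoc]
  refine mul_le_mul_of_nonneg_left ?_ (abs_nonneg _)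
  calc |η k| * |S.ev x (S.R k V)| ≤ 1 * rk k :=
        mul_le_mul h1 ((hrk k).2 x) (abs_nonneg _) zero_le_one
    _ = rk k := one_mul _

lemma exists_Gw_bound [CompactSpace X] (w : J → ℝ) (V : A) : ∃ aV, 0 ≤ aV ∧
    ∀ x, S.ev x (S.Gw w V) ≤ aV ^ 2 := by
  obtain ⟨a2, ha20, ha2⟩ := exists_bound (S := S) (S.Gw w V)
  refine ⟨Real.sqrt a2, Real.sqrt_nonneg _, fun x => ?_⟩
  rw [Real.sq_sqrt ha20]
  exact (le_abs_self _).trans (ha2 x)

lemma Gw_sum_le {ι : Type*} (t : Finset ι) (f : ι → A) (β : ι → ℝ) {x : X}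
    (h : ∀ i ∈ t, 0 ≤ β i ∧ S.ev x (S.Gw w (f i)) ≤ β i ^ 2) :
    S.ev x (S.Gw w (∑ i ∈ t, f i)) ≤ (∑ i ∈ t, β i) ^ 2 := by
  classical
  induction t using Finset.induction_on with
  | empty => simp [Gw]
  | insert i t hi ih =>
    rw [Finset.sum_insert hi, Finset.sum_insert hi]
    exact Gw_add_le (h i (Finset.mem_insert_self i t)).1
      (Finset.sum_nonneg fun k hk => (h k (Finset.mem_insert_of_mem hk)).1)
      (h i (Finset.mem_insert_self i t)).2 (ih fun k hk => h k (Finset.mem_insert_of_mem hk))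

/-- bounds for the mixed second derivatives -/
lemma exists_hess_bound [CompactSpace X] (w : J → ℝ) (V : A) : ∃ B, 0 ≤ B ∧
    ∀ x (η : J → ℝ), ∑ k, η k ^ 2 = 1 → S.ev x (S.Gw w (S.Rw w η V)) ≤ B ^ 2 := by
  obtain ⟨rk, hrk⟩ : ∃ rk : J → ℝ, ∀ k, 0 ≤ rk k ∧ ∀ x, S.ev x (S.Gw w (S.R k V)) ≤ rk k ^ 2 :=
    ⟨fun k => (exists_Gw_bound (S := S) w (S.R k V)).choose,
      fun k => (exists_Gw_bound (S := S) w (S.R k V)).choose_spec⟩
  refine ⟨∑ k, |(w k)⁻¹| * rk k, Finset.sum_nonneg fun k _ => mul_nonneg (abs_nonneg _) (hrk k).1,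
    fun x η hη => ?_⟩
  unfold Rw Rη
  refine Gw_sum_le _ _ _ fun k _ => ⟨mul_nonneg (abs_nonneg _) (hrk k).1, ?_⟩
  rw [Gw_smul, map_smul, smul_eq_mul, mul_pow, mul_pow, sq_abs]
  have h2 : η k ^ 2 ≤ 1 := by
    rw [← hη]
    exact Finset.single_le_sum (f := fun k => η k ^ 2) (fun i _ => sq_nonneg _)
      (Finset.mem_univ k)
  have h3 := (hrk k).2 x
  have h4 : 0 ≤ S.ev x (S.Gw w (S.R k V)) := ev_Gw_nonneg _ _
  calc (w k)⁻¹ ^ 2 * η k ^ 2 * S.ev x (S.Gw w (S.R k V))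
      ≤ (w k)⁻¹ ^ 2 * 1 * (rk k ^ 2) :=
        mul_le_mul (mul_le_mul_of_nonneg_left h2 (sq_nonneg _)) h3 h4 (by positivity)
    _ = _ := by ring

/-- For small `τ` the multiplier `1 - τ V` is good. -/
lemma good_mult [CompactSpace X] {V : A} (hV : S.Rep V) (hV0 : ∀ x, 0 ≤ S.ev x V) {B : ℝ}
    (hB0 : 0 ≤ B)
    (hB : ∀ x (η : J → ℝ), ∑ k, η k ^ 2 = 1 → S.ev x (S.Gw w (S.Rw w η V)) ≤ B ^ 2) {b1 : ℝ}
    (hb1 : B < b1) : ∀ᶠ τ in 𝓝[>] (0 : ℝ), S.Good w (b1 * τ) (1 - τ • V) := by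
  obtain ⟨Vm, hVm0, hVm⟩ := exists_bound (S := S) V
  obtain ⟨rV, hrV0, hrV⟩ := exists_Rw_bound (S := S) w V
  obtain ⟨aV, haV0, haV⟩ := exists_Gw_bound (S := S) w V
  have c1 := small (f := fun τ => 1 / 2 - τ * Vm) (by fun_prop) (by norm_num)
  have c2 := small (f := fun τ => b1 - (B + τ * (2 * Vm * B + 4 * (rV * aV)))) (by fun_prop)
    (by simp only [zero_mul, add_zero]; linarith)
  have c8 : ∀ᶠ τ in 𝓝[>] (0 : ℝ), 0 < τ := self_mem_nhdsWithin
  filter_upwards [c1, c2, c8] with τ c1 c2 c8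
  have hwpos : ∀ x, 0 < S.ev x (1 - τ • V) := by
    intro x
    rw [map_sub, map_one, map_smul, smul_eq_mul]
    have h1 := mul_le_mul_of_nonneg_left ((le_abs_self _).trans (hVm x)) c8.le
    linarith
  refine ⟨?_, hwpos, fun q hq x η hη => ?_⟩
  · rw [sub_eq_add_neg, ← neg_smul]
    exact Rep.one.add (hV.smul _)
  · exact mult_bound_w c8 hV0 (fun x => (le_abs_self _).trans (hVm x)) (by linarith) hq hB0
      (by linarith) hrV0 haV0 (by linarith) (hB x η hη) (hrV x η hη) (haV x)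

/-- For small `τ` the barrier condition holds. -/
lemma bar_ev {B b b1 Y : ℝ} (hb10 : 0 ≤ b1) (hbb : b1 < b) (hY : 0 < Y)
    (h : 2 * Y ^ 2 - S.K * Y + b < 0) : ∀ᶠ τ in 𝓝[>] (0 : ℝ), S.Bar τ b b1 Y := by
  have hb0 : 0 < b := lt_of_le_of_lt hb10 hbb
  obtain ⟨δ, hδ⟩ : ∃ δ, δ = -(2 * Y ^ 2 - S.K * Y + b) := ⟨_, rfl⟩
  have hδ0 : 0 < δ := by rw [hδ]; linarith
  have c3 := small (f := fun τ => δ - b * τ * (4 * Y + 2 * (b * τ))) (by fun_prop)
    (by simp only [mul_zero, zero_mul, sub_zero]; linarith)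
  have c8 : ∀ᶠ τ in 𝓝[>] (0 : ℝ), 0 < τ := self_mem_nhdsWithin
  filter_upwards [c3, c8] with τ c3 c8
  refine ⟨c8, hb10, hbb, hY, fun s hs hsτ => ?_⟩
  have h1 : 0 ≤ b * (τ - s) := mul_nonneg hb0.le (by linarith)
  have h2 : b * (τ - s) ≤ b * τ := mul_le_mul_of_nonneg_left (by linarith) hb0.le
  obtain ⟨t, ht⟩ : ∃ t, t = b * (τ - s) := ⟨_, rfl⟩
  rw [← ht] at h1 h2 ⊢
  have h3 : 2 * (Y + t) ^ 2 - S.K * (Y + t) + b = -δ + (t * (4 * Y + 2 * t) - S.K * t) := by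
    rw [hδ]; ring
  have h4 : t * (4 * Y + 2 * t) ≤ b * τ * (4 * Y + 2 * (b * τ)) :=
    mul_le_mul h2 (by linarith) (by positivity) (by linarith)
  have h5 : 0 ≤ S.K * t := mul_nonneg S.K_pos.le h1
  rw [h3]
  linarith

/-- The difference of the logarithmic derivatives of two multipliers. -/
lemma zmult_ev [CompactSpace X] (hw : S.Wt w) {V V' : A} (hV0 : ∀ x, 0 ≤ S.ev x V)
    (hV0' : ∀ x, 0 ≤ S.ev x V') {α α' : ℝ} (hα0 : 0 ≤ α) (hα : α < α')
    (hG : ∀ x, S.ev x (S.Gw w (V - V')) ≤ α ^ 2) : ∀ᶠ τ in 𝓝[>] (0 : ℝ),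
      ∀ q q', (1 - τ • V) * q = 1 → (1 - τ • V') * q' = 1 → ∀ x,
        S.ev x (S.Zw w q (1 - τ • V) q' (1 - τ • V')) ≤ (τ * α') ^ 2 := by
  obtain ⟨Vm, hVm0, hVm⟩ := exists_bound (S := S) V
  obtain ⟨Vm', hVm0', hVm'⟩ := exists_bound (S := S) V'
  obtain ⟨aV, haV0, haV⟩ := exists_Gw_bound (S := S) w V
  obtain ⟨aV', haV0', haV'⟩ := exists_Gw_bound (S := S) w V'
  have c1 := small (f := fun τ => 1 / 2 - τ * (Vm + Vm')) (by fun_prop) (by norm_num)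
  have c2 := small (f := fun τ => α' - (α + (2 * (τ * Vm) * aV + 2 * (τ * Vm') * aV')))
    (by fun_prop) (by simp only [zero_mul, mul_zero, add_zero]; linarith)
  have c8 : ∀ᶠ τ in 𝓝[>] (0 : ℝ), 0 < τ := self_mem_nhdsWithin
  filter_upwards [c1, c2, c8] with τ c1 c2 c8
  intro q q' hq hq' x
  have hτVm : 0 ≤ τ * Vm := mul_nonneg c8.le hVm0
  have hτVm' : 0 ≤ τ * Vm' := mul_nonneg c8.le hVm0'
  have key : ∀ {V q : A} {Vm : ℝ}, (∀ x, 0 ≤ S.ev x V) → (∀ x, |S.ev x V| ≤ Vm) → τ * Vm ≤ 1 / 2 →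
      (1 - τ • V) * q = 1 → |S.ev x q - 1| ≤ 2 * (τ * Vm) := by
    intro V q Vm hV0 hVm hτV hq
    obtain ⟨Q, hQ⟩ : ∃ Q, Q = S.ev x q := ⟨_, rfl⟩
    have hQ1 : (1 - τ * S.ev x V) * Q = 1 := by
      have := congrArg (S.ev x) hq
      rw [map_mul, map_sub, map_one, map_smul, smul_eq_mul, ← hQ] at this
      exact this
    have h1 := hV0 x
    have h2 := (le_abs_self _).trans (hVm x)
    have h3 : 0 ≤ τ * S.ev x V := mul_nonneg c8.le h1
    have h4 : τ * S.ev x V ≤ τ * Vm := mul_le_mul_of_nonneg_left h2 c8.le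
    have hQ0 : 0 ≤ Q := by
      by_contra hc
      rw [not_le] at hc
      nlinarith
    have hQ2 : Q ≤ 2 := by nlinarith
    have h5 : Q - 1 = τ * S.ev x V * Q := by linarith
    rw [← hQ, h5, abs_of_nonneg (mul_nonneg h3 hQ0)]
    nlinarith
  have k1 := key (q := q) hV0 hVm (by nlinarith) hq
  have k2 := key (q := q') hV0' hVm' (by nlinarith) hq'
  have hD : ∀ j, S.ev x (S.Z q (1 - τ • V) q' (1 - τ • V') j) =
      (-τ) * (S.ev x (S.D j (V - V')) + ((S.ev x q - 1) * S.ev x (S.D j V) +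
        (-(S.ev x q' - 1)) * S.ev x (S.D j V'))) := by
    intro j
    have h1 : ∀ W : A, S.D j (1 - τ • W) = (-τ) • S.D j W := by
      intro W
      rw [map_sub, Derivation.map_one_eq_zero, zero_sub, Derivation.map_smul, neg_smul]
    unfold Z
    rw [h1, h1, map_sub, map_mul, map_mul, map_smul, map_smul, map_sub, map_sub, smul_eq_mul,
      smul_eq_mul]
    ring
  rw [ev_Zw]
  have e0 : ∑ j, w j ^ 2 * S.ev x (S.Z q (1 - τ • V) q' (1 - τ • V') j) ^ 2 =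
      τ ^ 2 * ∑ j, (w j * S.ev x (S.D j (V - V')) +
        ((S.ev x q - 1) * (w j * S.ev x (S.D j V)) +
          (-(S.ev x q' - 1)) * (w j * S.ev x (S.D j V')))) ^ 2 := by
    rw [Finset.mul_sum]
    refine Finset.sum_congr rfl fun j _ => ?_
    rw [hD]; ring
  rw [e0, mul_pow]
  refine mul_le_mul_of_nonneg_left ?_ (sq_nonneg _)
  have g1 := hG x
  have g2 := haV x
  have g3 := haV' x
  rw [ev_Gw] at g1 g2 g3
  have h1 := vec_add_le (f := fun j => w j * S.ev x (S.D j (V - V')))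
    (g := fun j => (S.ev x q - 1) * (w j * S.ev x (S.D j V)) +
          (-(S.ev x q' - 1)) * (w j * S.ev x (S.D j V'))) hα0
    (b := 2 * (τ * Vm) * aV + 2 * (τ * Vm') * aV') (by positivity)
    (by simpa only [mul_pow] using g1) (by
      refine vec_add_le (by positivity) (by positivity) ?_ ?_
      · have : ∑ j, ((S.ev x q - 1) * (w j * S.ev x (S.D j V))) ^ 2 =
            (S.ev x q - 1) ^ 2 * ∑ j, w j ^ 2 * S.ev x (S.D j V) ^ 2 := by
          rw [Finset.mul_sum]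
          exact Finset.sum_congr rfl fun j _ => by ring
        rw [this, mul_pow _ aV]
        refine mul_le_mul ?_ g2 (Finset.sum_nonneg fun j _ => by positivity) (sq_nonneg _)
        rw [← sq_abs]
        exact pow_le_pow_left₀ (abs_nonneg _) k1 2
      · have : ∑ j, (-(S.ev x q' - 1) * (w j * S.ev x (S.D j V'))) ^ 2 =
            (S.ev x q' - 1) ^ 2 * ∑ j, w j ^ 2 * S.ev x (S.D j V') ^ 2 := by
          rw [Finset.mul_sum]
          exact Finset.sum_congr rfl fun j _ => by ring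
        rw [this, mul_pow _ aV']
        refine mul_le_mul ?_ g3 (Finset.sum_nonneg fun j _ => by positivity) (sq_nonneg _)
        rw [← sq_abs]
        exact pow_le_pow_left₀ (abs_nonneg _) k2 2)
  refine h1.trans (pow_le_pow_left₀ (by positivity) (by linarith) 2)

end Geo

end

end Pool.Agent.W504.YM
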