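import Mathlib
import Pool.Agent.W504.YW.W6

/-!
# The limits
-/

open Pool.Agent.H906R3.YM Filter Topology Set

namespace Pool.Agent.W504.YM

noncomputable section

variable {A : Type*} [CommRing A] [Algebra ℝ A] {J X : Type*} [Fintype J] [DecidableEq J]
    [TopologicalSpace X]

namespace Geo

variable {S : Geo A J X} {w : J → ℝ}

/-- the weighted bound for the mixed second derivatives -/
def HB (S : Geo A J X) (w : J → ℝ) (B : ℝ) (V : A) : Prop :=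
  ∀ x (η : J → ℝ), ∑ k, η k ^ 2 = 1 → S.ev x (S.Gw w (S.Rw w η V)) ≤ B ^ 2

/-- functions with small gradient have small oscillation -/
def Osc (S : Geo A J X) (w : J → ℝ) (Lo : ℝ) : Prop :=
  ∀ f c, 0 ≤ c → (∀ x, S.ev x (S.Gw w f) ≤ c ^ 2) → ∀ x y, S.ev x f - S.ev y f ≤ Lo * c

lemma pow_small {κ τ : ℝ} (hκ : 0 < κ) (hτ : 0 < τ) (Lo c : ℝ) {ε : ℝ} (hε : 0 < ε) :
    ∀ᶠ k : ℕ in atTop, Lo * (c * Real.exp (-(κ * τ)) ^ k) < ε := by
  have h1 : Real.exp (-(κ * τ)) < 1 := by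
    rw [Real.exp_lt_one_iff]
    have := mul_pos hκ hτ
    linarith
  have h2 := ((tendsto_pow_atTop_nhds_zero_of_lt_one (Real.exp_pos _).le h1).const_mul
    c).const_mul Lo
  rw [mul_zero, mul_zero] at h2
  exact h2.eventually (gt_mem_nhds hε)

/-- the energy of the iterates is at most the energy of any trial function -/
theorem energy_ev [CompactSpace X] [Nonempty X] (hw : S.Wt w) {V : A} (hV : S.Rep V)
    (hV0 : ∀ x, 0 ≤ S.ev x V) {B : ℝ} (hB0 : 0 ≤ B) (hB : S.HB w B V) {Y : ℝ} (hY : 0 < Y)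
    (hYB : 2 * Y ^ 2 - S.K * Y + B < 0) {Lo : ℝ} (osc : S.Osc w Lo) {F : A} (hF : S.Rep F)
    {m E1 : ℝ} (hm : 0 < m) (hmF : m ≤ S.I (F * F)) (hE10 : 0 ≤ E1)
    (hE1 : S.I (S.G2 F) + S.I (V * (F * F)) ≤ E1 * S.I (F * F)) {ε : ℝ} (hε : 0 < ε) :
    ∀ᶠ τ in 𝓝[>] (0 : ℝ), ∀ᶠ k in atTop,
      S.I (S.G2 ((S.St (1 - τ • V) τ)^[k] 1)) +
      S.I (V * ((S.St (1 - τ • V) τ)^[k] 1 * (S.St (1 - τ • V) τ)^[k] 1)) ≤
      (E1 + ε) * S.I ((S.St (1 - τ • V) τ)^[k] 1 * (S.St (1 - τ • V) τ)^[k] 1) := by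
  obtain ⟨δ, hδ⟩ : ∃ δ, δ = -(2 * Y ^ 2 - S.K * Y + B) := ⟨_, rfl⟩
  have hδ0 : 0 < δ := by rw [hδ]; linarith
  obtain ⟨b1, hb1⟩ : ∃ b1, b1 = B + δ / 4 := ⟨_, rfl⟩
  obtain ⟨b, hb⟩ : ∃ b, b = B + δ / 2 := ⟨_, rfl⟩
  have hKY : 0 < S.K - 2 * Y := by
    by_contra hc
    rw [not_lt] at hc
    nlinarith
  have g1 := good_mult (w := w) hV hV0 hB0 hB (b1 := b1) (by rw [hb1]; linarith)
  have g2 := bar_ev (S := S) (B := B) (b := b) (b1 := b1) (Y := Y) (by rw [hb1]; linarith)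
    (by rw [hb, hb1]; linarith) hY (by rw [hb, hδ]; linarith)
  obtain ⟨C1, hC1⟩ : ∃ C1, C1 = S.I (S.G2 F) + 2 * S.I (S.G2 (V * F)) := ⟨_, rfl⟩
  obtain ⟨C2, hC2⟩ : ∃ C2, C2 = S.I (V * (F * F)) := ⟨_, rfl⟩
  obtain ⟨C3, hC3⟩ : ∃ C3, C3 = 2 * (E1 * C2 + C1) / m := ⟨_, rfl⟩
  have c4 := small (f := fun τ => S.K - 2 * (Y + b * τ) - (S.K - 2 * Y) / 2) (by fun_prop)
    (by simp only [mul_zero, add_zero]; linarith)
  have c5 := small (f := fun τ => m / 2 - τ * C2) (by fun_prop)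
    (by simp only [zero_mul, sub_zero]; linarith)
  have c7 := small (f := fun τ => 1 - τ) (by fun_prop) (by norm_num)
  have c9 := small (f := fun τ => ε - (τ * (E1 * (E1 + ε)) + τ * C3 * (1 + τ * (E1 + ε))))
    (by fun_prop) (by simp only [zero_mul, add_zero, sub_zero]; linarith)
  have c8 : ∀ᶠ τ in 𝓝[>] (0 : ℝ), 0 < τ := self_mem_nhdsWithin
  filter_upwards [g1, g2, c4, c5, c7, c9, c8] with τ g1 g2 c4 c5 c7 c9 c8
  have hfm := first_moment (S := S) hV hV0 c8 (by linarith) hm (by linarith) hF hmF hE1 (C1 := C1)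
    (C2 := C2) (by rw [hC1]) (by rw [hC2])
  have hC20 : 0 ≤ C2 := by
    rw [hC2]
    exact I_nonneg fun x => by rw [map_mul, map_mul]; exact mul_nonneg (hV0 x) (mul_self_nonneg _)
  have hC10 : 0 ≤ C1 := by
    rw [hC1]
    have := I_G2_nonneg (S := S) F
    have := I_G2_nonneg (S := S) (V * F)
    linarith
  have hC30 : 0 ≤ C3 := by rw [hC3]; positivity
  rw [← hC3] at hfm
  obtain ⟨ρ, hρ⟩ : ∃ ρ, ρ = (1 + τ * (E1 + ε))⁻¹ := ⟨_, rfl⟩
  have hden : 0 < 1 + τ * (E1 + ε) := by positivity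
  have hρ0 : 0 < ρ := by rw [hρ]; exact inv_pos.2 hden
  have hρ1 : ρ < 1 - τ * E1 - τ ^ 2 * C3 := by
    rw [hρ, inv_lt_iff_one_lt_mul₀ hden]
    have h1 := mul_lt_mul_of_pos_left c9 c8
    nlinarith
  have hfin := energy_tau (κ := (S.K - 2 * Y) / 2) hw hV0 g2 (by linarith) (by linarith) g1 osc
    hF (half_pos hm) (θ := 1 - τ * E1 - τ ^ 2 * C3) (by
      have := mul_nonneg c8.le hE10
      have := mul_nonneg (sq_nonneg τ) hC30
      linarith) hfm.1 hfm.2 hρ0 hρ1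
  filter_upwards [hfin] with k hk
  refine hk.trans (le_of_eq ?_)
  congr 1
  rw [hρ, one_div, one_div, inv_inv]
  have := c8.ne'
  field_simp
  ring

/-- comparison of the expectations of two systems -/
theorem cmp_ev [CompactSpace X] [Nonempty X] (hlog : S.HasLog) (hw : S.Wt w) {V V' : A}
    (hV : S.Rep V) (hV0 : ∀ x, 0 ≤ S.ev x V) (hV' : S.Rep V') (hV0' : ∀ x, 0 ≤ S.ev x V')
    {B : ℝ} (hB0 : 0 ≤ B) (hB : S.HB w B V) (hB' : S.HB w B V')
    (hBi : S.HB (fun j => (w j)⁻¹) B V') {Y κ : ℝ} (hY : 0 < Y)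
    (hYB : 2 * Y ^ 2 - S.K * Y + B < 0) (hκ0 : 0 < κ) (hκ : κ < S.K - 2 * Y)
    {Lo : ℝ} (osc : S.Osc (fun j => (w j)⁻¹) Lo) {α : ℝ} (hα0 : 0 ≤ α)
    (hG : ∀ x, S.ev x (S.Gw w (V - V')) ≤ α ^ 2) {F : A} (hF : S.Rep F) {c : ℝ} (hc : 0 < c)
    (hFc : ∀ x, S.ev x (S.Gw (fun j => (w j)⁻¹) F) < c ^ 2) {ε : ℝ} (hε : 0 < ε) :
    ∀ᶠ τ in 𝓝[>] (0 : ℝ), ∀ᶠ k in atTop,
      |S.avg (1 - τ • V) ((S.St (1 - τ • V) τ)^[k] 1) F -
        S.avg (1 - τ • V') ((S.St (1 - τ • V') τ)^[k] 1) F| ≤ 2 * α * c / κ ^ 2 + ε := by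
  obtain ⟨δ, hδ⟩ : ∃ δ, δ = -(2 * Y ^ 2 - S.K * Y + B) := ⟨_, rfl⟩
  have hδ0 : 0 < δ := by rw [hδ]; linarith
  obtain ⟨b1, hb1⟩ : ∃ b1, b1 = B + δ / 4 := ⟨_, rfl⟩
  obtain ⟨b, hb⟩ : ∃ b, b = B + δ / 2 := ⟨_, rfl⟩
  have hBb : B < b1 := by rw [hb1]; linarith
  have g1 := good_mult (w := w) hV hV0 hB0 hB hBb
  have g1' := good_mult (w := w) hV' hV0' hB0 hB' hBb
  have g1i := good_mult (w := fun j => (w j)⁻¹) hV' hV0' hB0 hBi hBb
  have g2 := bar_ev (S := S) (B := B) (b := b) (b1 := b1) (Y := Y) (by rw [hb1]; linarith)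
    (by rw [hb, hb1]; linarith) hY (by rw [hb, hδ]; linarith)
  obtain ⟨t, ht⟩ : ∃ t, t = ε / 3 * κ ^ 2 / (2 * c) := ⟨_, rfl⟩
  have ht0 : 0 < t := by rw [ht]; positivity
  have ht1 : 2 * t * c / κ ^ 2 = ε / 3 := by rw [ht]; field_simp
  have g3 := zmult_ev (S := S) hw hV0 hV0' hα0 (α' := α + t) (by linarith) hG
  have c4 := small (f := fun τ => S.K - 2 * (Y + b * τ) - κ) (by fun_prop)
    (by simp only [mul_zero, add_zero]; linarith)
  have c5 := small (f := fun τ => (2 * α * c / κ ^ 2 + 2 * ε / 3) -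
      2 * ((α + t) / κ + τ * (α + t)) * c * (1 / κ + τ)) (by fun_prop) (by
      simp only [zero_mul, add_zero]
      have : 2 * ((α + t) / κ) * c * (1 / κ) = 2 * α * c / κ ^ 2 + 2 * t * c / κ ^ 2 := by
        field_simp
        try ring
      rw [this, ht1]; linarith)
  have c8 : ∀ᶠ τ in 𝓝[>] (0 : ℝ), 0 < τ := self_mem_nhdsWithin
  filter_upwards [g1, g1', g1i, g2, g3, c4, c5, c8] with τ g1 g1' g1i g2 g3 c4 c5 c8
  have hz : 0 < (α + t) / κ := div_pos (by linarith) hκ0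
  have hzz : ((α + t) / κ + τ * (α + t)) * Real.exp (-(κ * τ)) ≤ (α + t) / κ := by
    have h1 : (α + t) / κ + τ * (α + t) = (α + t) / κ * (1 + κ * τ) := by field_simp
    have h2 := Real.add_one_le_exp (κ * τ)
    have h3 : Real.exp (κ * τ) * Real.exp (-(κ * τ)) = 1 := by
      rw [← Real.exp_add]; simp
    rw [h1]
    calc (α + t) / κ * (1 + κ * τ) * Real.exp (-(κ * τ))
        ≤ (α + t) / κ * Real.exp (κ * τ) * Real.exp (-(κ * τ)) := by
          refine mul_le_mul_of_nonneg_right ?_ (Real.exp_pos _).le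
          exact mul_le_mul_of_nonneg_left (by linarith) hz.le
      _ = (α + t) / κ := by rw [mul_assoc, h3, mul_one]
  have hk := pow_small hκ0 c8 Lo c (ε := ε / 3) (by linarith)
  filter_upwards [hk] with k hk
  have h1 := cmp_avg hlog hw g2 (κ := κ) (by linarith) hκ0 g1 g1' g1i
    (ζ := τ * (α + t)) (mul_nonneg c8.le (by linarith)) g3 hz hzz osc hF hc hFc k
  linarith

/-- covariances -/
theorem cov_ev [CompactSpace X] [Nonempty X] (hlog : S.HasLog) (hw : S.Wt w) {V : A}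
    (hV : S.Rep V) (hV0 : ∀ x, 0 ≤ S.ev x V)
    {B : ℝ} (hB0 : 0 ≤ B) (hB : S.HB w B V)
    (hBi : S.HB (fun j => (w j)⁻¹) B V) {Y κ : ℝ} (hY : 0 < Y)
    (hYB : 2 * Y ^ 2 - S.K * Y + B < 0) (hκ0 : 0 < κ) (hκ : κ < S.K - 2 * Y)
    {Lo : ℝ} (osc : S.Osc (fun j => (w j)⁻¹) Lo) {F F' : A} (hF : S.Rep F) (hF' : S.Rep F')
    {c c' : ℝ} (hc : 0 < c) (hc' : 0 < c')
    (hFc : ∀ x, S.ev x (S.Gw (fun j => (w j)⁻¹) F) < c ^ 2)
    (hFc' : ∀ x, S.ev x (S.Gw w F') < c' ^ 2) {ε : ℝ} (hε : 0 < ε) :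
    ∀ᶠ τ in 𝓝[>] (0 : ℝ), ∀ᶠ k in atTop,
      |S.avg (1 - τ • V) ((S.St (1 - τ • V) τ)^[k] 1) (F * F') -
        S.avg (1 - τ • V) ((S.St (1 - τ • V) τ)^[k] 1) F *
        S.avg (1 - τ • V) ((S.St (1 - τ • V) τ)^[k] 1) F'| ≤ c * c' / κ + ε := by
  obtain ⟨δ, hδ⟩ : ∃ δ, δ = -(2 * Y ^ 2 - S.K * Y + B) := ⟨_, rfl⟩
  have hδ0 : 0 < δ := by rw [hδ]; linarith
  obtain ⟨b1, hb1⟩ : ∃ b1, b1 = B + δ / 4 := ⟨_, rfl⟩
  obtain ⟨b, hb⟩ : ∃ b, b = B + δ / 2 := ⟨_, rfl⟩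
  have hBb : B < b1 := by rw [hb1]; linarith
  have g1 := good_mult (w := w) hV hV0 hB0 hB hBb
  have g1i := good_mult (w := fun j => (w j)⁻¹) hV hV0 hB0 hBi hBb
  have g2 := bar_ev (S := S) (B := B) (b := b) (b1 := b1) (Y := Y) (by rw [hb1]; linarith)
    (by rw [hb, hb1]; linarith) hY (by rw [hb, hδ]; linarith)
  -- a slightly larger barrier
  have s1 := small (f := fun t => -(2 * (Y + t) ^ 2 - S.K * (Y + t) + b)) (by fun_prop)
    (by simp only [add_zero]; rw [hb, hδ]; linarith)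
  have s2 := small (f := fun t => S.K - 2 * (Y + t) - κ) (by fun_prop)
    (by simp only [add_zero]; linarith)
  have s3 : ∀ᶠ t in 𝓝[>] (0 : ℝ), 0 < t := self_mem_nhdsWithin
  obtain ⟨t, s1, s2, s3⟩ := (s1.and (s2.and s3)).exists
  have g2' := bar_ev (S := S) (B := B) (b := b) (b1 := b1) (Y := Y + t) (by rw [hb1]; linarith)
    (by rw [hb, hb1]; linarith) (by linarith) (by linarith)
  have c4 := small (f := fun τ => S.K - 2 * ((Y + t) + b * τ) - κ) (by fun_prop)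
    (by simp only [mul_zero, add_zero]; linarith)
  -- the perturbation
  obtain ⟨M, hM0, hM⟩ := exists_bound (S := S) F'
  obtain ⟨W, hW⟩ : ∃ W : A, W = M • (1 : A) - F' := ⟨_, rfl⟩
  have hW0 : ∀ x, 0 ≤ S.ev x W := fun x => by
    rw [hW, map_sub, map_smul, map_one, smul_eq_mul, mul_one]
    have := (le_abs_self _).trans (hM x)
    linarith
  have hWM : ∀ x, S.ev x W ≤ 2 * M := fun x => by
    rw [hW, map_sub, map_smul, map_one, smul_eq_mul, mul_one]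
    have := (neg_abs_le _).trans' (neg_le_neg (hM x))
    linarith
  have hWr : S.Rep W := by
    rw [hW, sub_eq_add_neg, ← neg_one_smul ℝ F']
    exact (Rep.one.smul _).add (hF'.smul _)
  obtain ⟨BW, hBW0, hBW⟩ := exists_hess_bound (S := S) w W
  have p1 := good_mult (w := w) hWr hW0 hBW0 hBW (b1 := BW + 1) (by linarith)
  have p2 := small (f := fun e => t - (BW + 1) * e) (by fun_prop)
    (by simp only [mul_zero, sub_zero]; exact s3)
  have p3 := small (f := fun e => 1 / 2 - e * (2 * M)) (by fun_prop) (by norm_num)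
  have p4 := small (f := fun e => (c * c' / κ + ε / 3) - (1 + 4 * (e * M)) * (c * c' / κ))
    (by fun_prop) (by simp only [zero_mul, mul_zero, add_zero, one_mul]; linarith)
  have p5 : ∀ᶠ e in 𝓝[>] (0 : ℝ), 0 < e := self_mem_nhdsWithin
  obtain ⟨e, p1, p2, p3, p4, p5⟩ := (p1.and (p2.and (p3.and (p4.and p5)))).exists
  obtain ⟨g, hg⟩ : ∃ g : A, g = 1 - e • W := ⟨_, rfl⟩
  rw [← hg] at p1
  obtain ⟨z, hz⟩ : ∃ z, z = e * c' * (1 + 4 * (e * M)) := ⟨_, rfl⟩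
  have hz0 : 0 < z := by rw [hz]; positivity
  have hgz : ∀ q, g * q = 1 → ∀ x, ∑ j, w j ^ 2 * S.ev x (q * S.D j g) ^ 2 < z ^ 2 := by
    intro q hq x
    have h1 : ∀ j, S.D j g = e • S.D j F' := by
      intro j
      rw [hg, hW, map_sub, Derivation.map_one_eq_zero, Derivation.map_smul, map_sub,
        Derivation.map_smul, Derivation.map_one_eq_zero, smul_zero, zero_sub, zero_sub, smul_neg,
        neg_neg]
    have h2 : ∑ j, w j ^ 2 * S.ev x (q * S.D j g) ^ 2 =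
        (e * S.ev x q) ^ 2 * S.ev x (S.Gw w F') := by
      rw [ev_Gw, Finset.mul_sum]
      refine Finset.sum_congr rfl fun j _ => ?_
      rw [h1, map_mul, map_smul, smul_eq_mul]; ring
    have h3 : (1 - e * S.ev x W) * S.ev x q = 1 := by
      have := congrArg (S.ev x) hq
      rw [hg, map_mul, map_sub, map_one, map_smul, smul_eq_mul] at this
      exact this
    have h4 : e * S.ev x W ≤ e * (2 * M) := mul_le_mul_of_nonneg_left (hWM x) p5.le
    have h5 : 0 ≤ e * S.ev x W := mul_nonneg p5.le (hW0 x)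
    have h6 : 0 < S.ev x q := by
      by_contra hcn
      rw [not_lt] at hcn
      nlinarith
    have h7 : S.ev x q ≤ 2 := by nlinarith
    have h8 : S.ev x q ≤ 1 + 4 * (e * M) := by
      have e1 : S.ev x q = 1 + e * S.ev x W * S.ev x q := by linarith
      have e2 : e * S.ev x W * S.ev x q ≤ e * (2 * M) * 2 :=
        mul_le_mul h4 h7 h6.le (by positivity)
      linarith
    rw [h2]
    have h9 := hFc' x
    have h10 : 0 < (e * S.ev x q) ^ 2 := by positivity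
    calc (e * S.ev x q) ^ 2 * S.ev x (S.Gw w F') < (e * S.ev x q) ^ 2 * c' ^ 2 :=
          mul_lt_mul_of_pos_left h9 h10
      _ ≤ (e * (1 + 4 * (e * M))) ^ 2 * c' ^ 2 := by
          refine mul_le_mul_of_nonneg_right ?_ (sq_nonneg _)
          exact pow_le_pow_left₀ (by positivity) (mul_le_mul_of_nonneg_left h8 p5.le) 2
      _ = z ^ 2 := by rw [hz]; ring
  have c5 := small (f := fun τ => (c * c' / κ + 2 * (ε / 3)) -
      2 * (c' * (1 + 4 * (e * M))) * c * (1 / (2 * κ) + τ)) (by fun_prop) (by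
      simp only [add_zero]
      have : 2 * (c' * (1 + 4 * (e * M))) * c * (1 / (2 * κ)) =
          (1 + 4 * (e * M)) * (c * c' / κ) := by
        field_simp
      rw [this]; linarith)
  have c8 : ∀ᶠ τ in 𝓝[>] (0 : ℝ), 0 < τ := self_mem_nhdsWithin
  filter_upwards [g1, g1i, g2, g2', c4, c5, c8] with τ g1 g1i g2 g2' c4 c5 c8
  have hk := pow_small hκ0 c8 Lo c (ε := e * (ε / 3)) (by positivity)
  filter_upwards [hk] with k hk
  have h1 := cov_avg hlog hw g2 g2' (ε := (BW + 1) * e) (by positivity) (by linarith) (κ := κ)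
    (by linarith) hκ0 g1 g1i osc hF p1 hc hz0 hFc hgz k
  obtain ⟨ψ, hψ⟩ : ∃ ψ, ψ = (S.St (1 - τ • V) τ)^[k] 1 := ⟨_, rfl⟩
  obtain ⟨a, ha⟩ : ∃ a : A, a = 1 - τ • V := ⟨_, rfl⟩
  have hgood := good_steps hw g2 g1 (good_one w Y) k
  rw [← hψ] at h1 hgood ⊢
  rw [← ha] at h1 g1 ⊢
  have hI : 0 < S.I (a * (ψ * ψ)) := I_pos fun x => by
    rw [map_mul, map_mul]
    exact mul_pos (g1.pos x) (mul_pos (hgood.pos x) (hgood.pos x))
  -- linearity
  have hlin : ∀ G : A, S.avg a ψ (G * g) = (1 - e * M) * S.avg a ψ G + e * S.avg a ψ (G * F') := by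
    intro G
    unfold avg
    have e1 : a * (G * g * (ψ * ψ)) = (1 - e * M) • (a * (G * (ψ * ψ))) +
        e • (a * (G * F' * (ψ * ψ))) := by
      rw [hg, hW]
      simp only [Algebra.smul_def, map_sub, map_one, map_mul]
      ring
    rw [e1, map_add, map_smul, map_smul, smul_eq_mul, smul_eq_mul]
    field_simp
  have hone : S.avg a ψ 1 = 1 := by
    unfold avg
    rw [one_mul]
    exact div_self hI.ne'
  have hg1 := hlin 1
  rw [one_mul, one_mul, hone, mul_one] at hg1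
  have hgF := hlin F
  obtain ⟨u, hu⟩ : ∃ u, u = S.avg a ψ F := ⟨_, rfl⟩
  obtain ⟨v, hv⟩ : ∃ v, v = S.avg a ψ F' := ⟨_, rfl⟩
  obtain ⟨uv, huv⟩ : ∃ uv, uv = S.avg a ψ (F * F') := ⟨_, rfl⟩
  rw [← hv] at hg1
  rw [← hu, ← huv] at hgF
  rw [hgF, hg1, ← hu] at h1
  rw [← hu, ← hv, ← huv]
  have hvM : |v| ≤ M := by
    rw [hv]
    unfold avg
    rw [abs_div, abs_of_pos hI, div_le_iff₀ hI, abs_le]
    have e1 := S.I_mono (f := a * (F' * (ψ * ψ))) (g := M • (a * (ψ * ψ))) fun x => by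
      rw [map_smul, smul_eq_mul, map_mul (S.ev x) a, map_mul (S.ev x) a, map_mul (S.ev x) F']
      have h2 := (le_abs_self _).trans (hM x)
      have h3 : 0 ≤ S.ev x a * S.ev x (ψ * ψ) :=
        mul_nonneg (g1.pos x).le (by rw [map_mul]; exact mul_self_nonneg _)
      nlinarith
    have e2 := S.I_mono (f := (-M) • (a * (ψ * ψ))) (g := a * (F' * (ψ * ψ))) fun x => by
      rw [map_smul, smul_eq_mul, map_mul (S.ev x) a, map_mul (S.ev x) a, map_mul (S.ev x) F']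
      have h2 := (neg_abs_le _).trans' (neg_le_neg (hM x))
      have h3 : 0 ≤ S.ev x a * S.ev x (ψ * ψ) :=
        mul_nonneg (g1.pos x).le (by rw [map_mul]; exact mul_self_nonneg _)
      nlinarith
    rw [map_smul, smul_eq_mul] at e1 e2
    constructor <;> linarith
  obtain ⟨Dn, hDn⟩ : ∃ Dn, Dn = 1 - e * M + e * v := ⟨_, rfl⟩
  have hDn0 : 0 < Dn := by
    have := (abs_le.1 hvM).1
    rw [hDn]; nlinarith
  have hDn1 : Dn ≤ 1 := by
    have := (abs_le.1 hvM).2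
    rw [hDn]; nlinarith
  rw [← hDn] at h1
  have h2 : ((1 - e * M) * u + e * uv) / Dn - u = e * (uv - u * v) / Dn := by
    rw [hDn] at hDn0 ⊢
    field_simp
    ring
  rw [h2, abs_div, abs_of_pos hDn0, div_le_iff₀ hDn0, abs_mul, abs_of_pos p5] at h1
  have h3 : 2 * z * c * (1 / (2 * κ) + τ) + Lo * (c * Real.exp (-(κ * τ)) ^ k) ≤
      e * (c * c' / κ + ε) := by
    have e1 : 2 * z * c * (1 / (2 * κ) + τ) =
        e * (2 * (c' * (1 + 4 * (e * M))) * c * (1 / (2 * κ) + τ)) := by rw [hz]; ring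
    rw [e1]
    have e2 : e * (2 * (c' * (1 + 4 * (e * M))) * c * (1 / (2 * κ) + τ)) ≤
        e * (c * c' / κ + 2 * (ε / 3)) := mul_le_mul_of_nonneg_left (by linarith) p5.le
    nlinarith
  have h4 : e * |uv - u * v| ≤ e * (c * c' / κ + ε) := by
    refine h1.trans ?_
    have h5 : 0 ≤ e * (c * c' / κ + ε) := by positivity
    calc (2 * z * c * (1 / (2 * κ) + τ) + Lo * (c * Real.exp (-(κ * τ)) ^ k)) * Dn
        ≤ e * (c * c' / κ + ε) * Dn := mul_le_mul_of_nonneg_right h3 hDn0.le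
      _ ≤ e * (c * c' / κ + ε) * 1 := mul_le_mul_of_nonneg_left hDn1 h5
      _ = _ := mul_one _
  exact le_of_mul_le_mul_left h4 p5

/-- the weight `1 - τ V` in the expectation can be dropped -/
theorem avg_one_ev [CompactSpace X] [Nonempty X] {V : A} (hV0 : ∀ x, 0 ≤ S.ev x V) (F : A)
    {ε : ℝ} (hε : 0 < ε) : ∀ᶠ τ in 𝓝[>] (0 : ℝ), ∀ ψ : A, (∀ x, 0 < S.ev x ψ) →
      |S.avg (1 - τ • V) ψ F - S.avg 1 ψ F| ≤ ε := by
  obtain ⟨Vm, hVm0, hVm⟩ := exists_bound (S := S) V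
  obtain ⟨M, hM0, hM⟩ := exists_bound (S := S) F
  have c1 := small (f := fun τ => 1 / 2 - τ * Vm) (by fun_prop) (by norm_num)
  have c2 := small (f := fun τ => ε - 4 * (τ * Vm) * M) (by fun_prop)
    (by simp only [zero_mul, mul_zero, sub_zero]; exact hε)
  have c8 : ∀ᶠ τ in 𝓝[>] (0 : ℝ), 0 < τ := self_mem_nhdsWithin
  filter_upwards [c1, c2, c8] with τ c1 c2 c8
  intro ψ hψ
  obtain ⟨Q, hQ⟩ : ∃ Q, Q = S.I (ψ * ψ) := ⟨_, rfl⟩
  have hQ0 : 0 < Q := by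
    rw [hQ]
    exact I_pos fun x => by rw [map_mul]; exact mul_pos (hψ x) (hψ x)
  obtain ⟨N1, hN1⟩ : ∃ N1, N1 = S.I (F * (ψ * ψ)) := ⟨_, rfl⟩
  obtain ⟨R, hR⟩ : ∃ R, R = S.I (V * (ψ * ψ)) := ⟨_, rfl⟩
  obtain ⟨T, hT⟩ : ∃ T, T = S.I (V * (F * (ψ * ψ))) := ⟨_, rfl⟩
  have e1 : S.I ((1 - τ • V) * (F * (ψ * ψ))) = N1 - τ * T := by
    rw [sub_mul, one_mul, smul_mul_assoc, map_sub, map_smul, smul_eq_mul, hN1, hT]
  have e2 : S.I ((1 - τ • V) * (ψ * ψ)) = Q - τ * R := by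
    rw [sub_mul, one_mul, smul_mul_assoc, map_sub, map_smul, smul_eq_mul, hQ, hR]
  have hψ2 : ∀ x, 0 ≤ S.ev x (ψ * ψ) := fun x => by rw [map_mul]; exact mul_self_nonneg _
  have hR0 : 0 ≤ R := by
    rw [hR]
    exact I_nonneg fun x => by rw [map_mul]; exact mul_nonneg (hV0 x) (hψ2 x)
  have hRQ : R ≤ Vm * Q := by
    have := S.I_mono (f := V * (ψ * ψ)) (g := Vm • (ψ * ψ)) fun x => by
      rw [map_mul (S.ev x) V, map_smul, smul_eq_mul]
      exact mul_le_mul_of_nonneg_right ((le_abs_self _).trans (hVm x)) (hψ2 x)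
    rwa [map_smul, smul_eq_mul, ← hR, ← hQ] at this
  have hTQ : |T| ≤ Vm * M * Q := by
    rw [abs_le]
    have k1 := S.I_mono (f := V * (F * (ψ * ψ))) (g := (Vm * M) • (ψ * ψ)) fun x => by
      rw [map_mul (S.ev x) V, map_mul (S.ev x) F, map_smul, smul_eq_mul]
      have h1 := (le_abs_self _).trans (hVm x)
      have h2 := (le_abs_self _).trans (hM x)
      have h3 : S.ev x V * S.ev x F ≤ Vm * M := by
        calc S.ev x V * S.ev x F ≤ S.ev x V * M := mul_le_mul_of_nonneg_left h2 (hV0 x)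
          _ ≤ Vm * M := mul_le_mul_of_nonneg_right h1 hM0
      have h4 := mul_le_mul_of_nonneg_right h3 (hψ2 x)
      linarith
    have k2 := S.I_mono (f := (-(Vm * M)) • (ψ * ψ)) (g := V * (F * (ψ * ψ))) fun x => by
      rw [map_mul (S.ev x) V, map_mul (S.ev x) F, map_smul, smul_eq_mul]
      have h1 := (le_abs_self _).trans (hVm x)
      have h2 := (neg_abs_le _).trans' (neg_le_neg (hM x))
      have h3 : -(Vm * M) ≤ S.ev x V * S.ev x F := by
        calc -(Vm * M) ≤ -(S.ev x V * M) := neg_le_neg (mul_le_mul_of_nonneg_right h1 hM0)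
          _ = S.ev x V * (-M) := by ring
          _ ≤ S.ev x V * S.ev x F := mul_le_mul_of_nonneg_left h2 (hV0 x)
      have h4 := mul_le_mul_of_nonneg_right h3 (hψ2 x)
      linarith
    rw [map_smul, smul_eq_mul, ← hT, ← hQ] at k1 k2
    constructor <;> linarith
  have hN : |N1| ≤ M * Q := by
    rw [abs_le]
    have k1 := S.I_mono (f := F * (ψ * ψ)) (g := M • (ψ * ψ)) fun x => by
      rw [map_mul (S.ev x) F, map_smul, smul_eq_mul]
      exact mul_le_mul_of_nonneg_right ((le_abs_self _).trans (hM x)) (hψ2 x)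
    have k2 := S.I_mono (f := (-M) • (ψ * ψ)) (g := F * (ψ * ψ)) fun x => by
      rw [map_mul (S.ev x) F, map_smul, smul_eq_mul]
      exact mul_le_mul_of_nonneg_right ((neg_abs_le _).trans' (neg_le_neg (hM x))) (hψ2 x)
    rw [map_smul, smul_eq_mul, ← hN1, ← hQ] at k1 k2
    constructor <;> linarith
  unfold avg
  rw [e1, e2, one_mul, one_mul, ← hN1, ← hQ]
  have hDn : Q / 2 ≤ Q - τ * R := by
    have h1 : τ * R ≤ τ * (Vm * Q) := mul_le_mul_of_nonneg_left hRQ c8.le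
    nlinarith
  have hDn0 : 0 < Q - τ * R := by linarith
  have e3 : (N1 - τ * T) / (Q - τ * R) - N1 / Q = τ * (R * N1 - T * Q) / ((Q - τ * R) * Q) := by
    rw [div_sub_div _ _ hDn0.ne' hQ0.ne']
    congr 1
    ring
  rw [e3, abs_div, abs_of_pos (mul_pos hDn0 hQ0), div_le_iff₀ (mul_pos hDn0 hQ0), abs_mul,
    abs_of_pos c8]
  have h1 : |R * N1 - T * Q| ≤ 2 * (Vm * M * Q * Q) := by
    refine (abs_sub _ _).trans ?_
    rw [abs_mul, abs_mul, abs_of_nonneg hR0, abs_of_pos hQ0]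
    have h2 : R * |N1| ≤ (Vm * Q) * (M * Q) := mul_le_mul hRQ hN (abs_nonneg _) (by positivity)
    have h3 : |T| * Q ≤ Vm * M * Q * Q := mul_le_mul_of_nonneg_right hTQ hQ0.le
    nlinarith
  have h2 : τ * |R * N1 - T * Q| ≤ τ * (2 * (Vm * M * Q * Q)) := mul_le_mul_of_nonneg_left h1 c8.le
  have h3 : (4 * (τ * Vm) * M) * (Q / 2 * Q) ≤ ε * ((Q - τ * R) * Q) := by
    have h4 : Q / 2 * Q ≤ (Q - τ * R) * Q := mul_le_mul_of_nonneg_right hDn hQ0.le
    exact mul_le_mul (by linarith) h4 (by positivity) hε.le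
  nlinarith

end Geo

end

end Pool.Agent.W504.YM
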